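import Pool.Agent.Helper58_RF.Riem2
import Pool.Agent.Helper85_RF.PosL

/-!
# Orthonormal frames and a lower dimensional form of the nonnegativity condition (helper58)
-/

noncomputable section

open scoped ContDiff Topology RealInnerProductSpace
set_option maxSynthPendingDepth 3
set_option linter.unusedSectionVars false
open Set

namespace Pool.Agent.RF.H58

open Pool.Agent.RF

variable {ι : Type} [Fintype ι] [DecidableEq ι] {G : E ι → Bil (E ι)} {U : Set (E ι)}

theorem exists_frame (g : Bil (E ι)) (hs : ∀ v w, g v w = g w v) (hp : ∀ v, v ≠ 0 → 0 < g v v) :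
    ∃ e : ι → E ι, IsOrtho g e := by
  let B : LinearMap.BilinForm ℝ (E ι) :=
    LinearMap.mk₂ ℝ (fun v w => g v w) (fun a b c => by simp) (fun c a b => by simp)
      (fun a b c => by simp) (fun c a b => by simp)
  have hB : LinearMap.IsSymm B := ⟨fun v w => hs v w⟩
  have : Invertible (2 : ℝ) := invertibleOfNonzero two_ne_zero
  obtain ⟨b, hb⟩ := LinearMap.BilinForm.exists_orthogonal_basis hB
  have hcard : Module.finrank ℝ (E ι) = Fintype.card ι := finrank_euclideanSpace
  have eq : ι ≃ Fin (Module.finrank ℝ (E ι)) := by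
    rw [hcard]
    exact Fintype.equivFin ι
  refine ⟨fun i => (√(g (b (eq i)) (b (eq i))))⁻¹ • b (eq i), ?_⟩
  intro i j
  have hpos : ∀ i, 0 < g (b (eq i)) (b (eq i)) := fun i => hp _ (b.ne_zero _)
  have hsq : ∀ i, √(g (b (eq i)) (b (eq i))) * √(g (b (eq i)) (b (eq i))) =
      g (b (eq i)) (b (eq i)) := fun i => Real.mul_self_sqrt (hpos i).le
  have hsq0 : ∀ i, √(g (b (eq i)) (b (eq i))) ≠ 0 := fun i => (Real.sqrt_pos.2 (hpos i)).ne'
  simp only [map_smul, _root_.smul_apply, smul_eq_mul]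
  split_ifs with h
  · subst h
    have h1 := hsq i
    have h2 := hsq0 i
    field_simp
    rw [sq, h1]
  · have h1 : eq i ≠ eq j := fun h' => h (eq.injective h')
    have h2 : g (b (eq i)) (b (eq j)) = 0 := hb h1
    rw [h2]
    simp

section lin
variable (hG : IsMetricOn G U) {x : E ι} (hx : x ∈ U)
include hG hx

theorem riem_sum1 {κ : Type} [Fintype κ] (c : κ → ℝ) (e : κ → E ι) (v w : E ι) :
    riem G x (∑ i, c i • e i) v w = ∑ i, c i • riem G x (e i) v w := by
  have h : H5.riemLin chrStatement hG hx v w (∑ i, c i • e i) =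
      ∑ i, c i • H5.riemLin chrStatement hG hx v w (e i) := by
    rw [map_sum]
    refine Finset.sum_congr rfl fun i _ => ?_
    rw [map_smul]
  exact h

theorem riem_sum2 {κ : Type} [Fintype κ] (c : κ → ℝ) (e : κ → E ι) (u w : E ι) :
    riem G x u (∑ i, c i • e i) w = ∑ i, c i • riem G x u (e i) w := by
  rw [H5.riem_antisymm chrStatement hG hx, riem_sum1 hG hx, ← Finset.sum_neg_distrib]
  refine Finset.sum_congr rfl fun i _ => ?_
  rw [H5.riem_antisymm chrStatement hG hx u, smul_neg]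

theorem riem_sum3 {κ : Type} [Fintype κ] (c : κ → ℝ) (e : κ → E ι) (u v : E ι) :
    riem G x u v (∑ i, c i • e i) = ∑ i, c i • riem G x u v (e i) := by
  let L : E ι →ₗ[ℝ] E ι :=
    { toFun := fun w => riem G x u v w
      map_add' := fun a b => H5.riem_add3 chrStatement hG hx u v a b
      map_smul' := fun c a => H5.riem_smul3 chrStatement hG hx c u v a }
  have h2 : L (∑ i, c i • e i) = ∑ i, c i • L (e i) := by simp
  exact h2

end lin

/-- the quadratic form in the coordinate frame -/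
def qf4 (G : E ι → Bil (E ι)) (x : E ι) (ψ : ι → ℝ) : ℝ :=
  ∑ a, ∑ b, ψ a * ψ b * G x (riem G x (eb a) (eb b) (eb a)) (eb b)

theorem skf_eq (hG : IsMetricOn G U) {x : E ι} (hx : x ∈ U) {e : ι → E ι} (he : IsOrtho (G x) e)
    (ψ : ι → ℝ) :
    skf G x e (fun i j => ∑ a, ψ a * (G x (e i) (eb a) * G x (e j) (eb a))) = qf4 G x ψ := by
  unfold skf qf4
  have h1 : ∀ a b : ι, G x (riem G x (eb a) (eb b) (eb a)) (eb b) =
      ∑ i, ∑ j, ∑ k, ∑ l, G x (e i) (eb a) * G x (e j) (eb a) * (G x (e k) (eb b) *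
        G x (e l) (eb b)) * G x (riem G x (e i) (e k) (e j)) (e l) := by
    intro a b
    have ea := H85.expand he (eb a)
    have eb' := H85.expand he (eb b)
    conv_lhs => rw [← ea, ← eb']
    rw [riem_sum1 hG hx, map_sum (G x), _root_.sum_apply]
    refine Finset.sum_congr rfl fun i _ => ?_
    rw [map_smul (G x), _root_.smul_apply, riem_sum3 hG hx, map_sum (G x), _root_.sum_apply,
      Finset.smul_sum]
    refine Finset.sum_congr rfl fun j _ => ?_
    rw [map_smul (G x), _root_.smul_apply, riem_sum2 hG hx, map_sum (G x), _root_.sum_apply,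
      Finset.smul_sum, Finset.smul_sum]
    refine Finset.sum_congr rfl fun k _ => ?_
    rw [map_smul (G x), _root_.smul_apply, map_sum, Finset.smul_sum, Finset.smul_sum,
      Finset.smul_sum]
    refine Finset.sum_congr rfl fun l _ => ?_
    rw [map_smul]
    simp only [smul_eq_mul]
    ring
  have h2 : ∀ f : ι → ι → ι → ι → ι → ι → ℝ,
      ∑ i, ∑ j, ∑ k, ∑ l, ∑ a, ∑ b, f i j k l a b = ∑ a, ∑ b, ∑ i, ∑ j, ∑ k, ∑ l, f i j k l a b := by
    intro f
    calc ∑ i, ∑ j, ∑ k, ∑ l, ∑ a, ∑ b, f i j k l a b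
        = ∑ i, ∑ j, ∑ k, ∑ a, ∑ b, ∑ l, f i j k l a b := by
          refine Finset.sum_congr rfl fun i _ => Finset.sum_congr rfl fun j _ =>
            Finset.sum_congr rfl fun k _ => ?_
          rw [Finset.sum_comm]
          refine Finset.sum_congr rfl fun a _ => ?_
          rw [Finset.sum_comm]
      _ = ∑ i, ∑ j, ∑ a, ∑ b, ∑ k, ∑ l, f i j k l a b := by
          refine Finset.sum_congr rfl fun i _ => Finset.sum_congr rfl fun j _ => ?_
          rw [Finset.sum_comm]
          refine Finset.sum_congr rfl fun a _ => ?_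
          rw [Finset.sum_comm]
      _ = ∑ i, ∑ a, ∑ b, ∑ j, ∑ k, ∑ l, f i j k l a b := by
          refine Finset.sum_congr rfl fun i _ => ?_
          rw [Finset.sum_comm]
          refine Finset.sum_congr rfl fun a _ => ?_
          rw [Finset.sum_comm]
      _ = ∑ a, ∑ b, ∑ i, ∑ j, ∑ k, ∑ l, f i j k l a b := by
          rw [Finset.sum_comm]
          refine Finset.sum_congr rfl fun a _ => ?_
          rw [Finset.sum_comm]
  have h3 : ∑ a, ∑ b, ψ a * ψ b * G x (riem G x (eb a) (eb b) (eb a)) (eb b) =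
      ∑ i, ∑ j, ∑ k, ∑ l, ∑ a, ∑ b, ψ a * ψ b * (G x (e i) (eb a) * G x (e j) (eb a) *
        (G x (e k) (eb b) * G x (e l) (eb b)) * G x (riem G x (e i) (e k) (e j)) (e l)) := by
    rw [h2 (fun i j k l a b => ψ a * ψ b * (G x (e i) (eb a) * G x (e j) (eb a) *
        (G x (e k) (eb b) * G x (e l) (eb b)) * G x (riem G x (e i) (e k) (e j)) (e l)))]
    refine Finset.sum_congr rfl fun a _ => Finset.sum_congr rfl fun b _ => ?_
    rw [h1]
    simp only [Finset.mul_sum]
  rw [h3]
  refine Finset.sum_congr rfl fun i _ => Finset.sum_congr rfl fun j _ =>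
    Finset.sum_congr rfl fun k _ => Finset.sum_congr rfl fun l _ => ?_
  rw [mul_assoc, mul_comm (∑ a, ψ a * (G x (e k) (eb a) * G x (e l) (eb a))),
    Finset.sum_mul_sum, Finset.mul_sum]
  refine Finset.sum_congr rfl fun a _ => ?_
  rw [Finset.mul_sum]
  refine Finset.sum_congr rfl fun b _ => ?_
  ring

/-- nonnegativity gives `0 ≤ qf4` -/
theorem qf4_nonneg (hG : IsMetricOn G U) {x : E ι} (hx : x ∈ U) (h : NonnegSK G x) (ψ : ι → ℝ)
    (htr : ∑ a, ψ a * G x (eb a) (eb a) = 0) : 0 ≤ qf4 G x ψ := by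
  obtain ⟨e, he⟩ := exists_frame (G x) (hG.symm x hx) (hG.pos x hx)
  rw [← skf_eq hG hx he ψ]
  refine h e he _ ?_ ?_
  · ext i j
    show ∑ a, ψ a * (G x (e j) (eb a) * G x (e i) (eb a)) =
      ∑ a, ψ a * (G x (e i) (eb a) * G x (e j) (eb a))
    refine Finset.sum_congr rfl fun a _ => ?_
    ring
  · show ∑ i, ∑ a, ψ a * (G x (e i) (eb a) * G x (e i) (eb a)) = 0
    rw [Finset.sum_comm, ← htr]
    refine Finset.sum_congr rfl fun a _ => ?_
    rw [← Finset.mul_sum]
    congr 1
    rw [← H85.parseval he (eb a) (eb a)]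
    refine Finset.sum_congr rfl fun i _ => ?_
    rw [hG.symm x hx (eb a) (e i)]

end Pool.Agent.RF.H58
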