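import Pool.Agent.Helper36_RF.Ex

/-!
# The polynomial identity behind the module EVO (helper58)
-/

noncomputable section

namespace Pool.Agent.RF.H58

open Pool.Agent.RF

theorem ident0 (p Q K A0 m0 : ℝ) (hp0 : p ≠ 0) (hQ0 : Q ≠ 0) (hA0 : A0 ≠ 0) :
    Q * Q * (-A0 * (p * (p - 1))) + (Q * (- p * A0) + (- p * A0) * Q) * (p * Q * (-m0))
      + (- p * A0) * (- p * A0) * ((2 * 0 - K) * (Q * (Q - 1))) =
      p ^ 2 * Q ^ 2 * A0 ^ 2 * orbF p Q K A0 m0 := by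
  unfold orbF
  field_simp
  ring

set_option maxHeartbeats 2000000 in
theorem ident1 (p Q K A0 m0 ν : ℝ) (hp0 : p ≠ 0) (hQ0 : Q ≠ 0) (hQ2 : Q + 2 ≠ 0) (hA0 : A0 ≠ 0)
    (hm0 : m0 = A0 / 2 * ((1 - 1 / Q) * K + (1 - 1 / p) * (1 / A0)))
    (cA cB P0 R0 S0 P1 S1 : ℝ)
    (hP0 : P0 = (Q - 1) * K + p * (m0 / A0))
    (hR0 : R0 = ((Q - 1) * K + p * (m0 / A0)) * K
        + p * (-m0 * K / A0 - 2 * ν / A0 + m0 ^ 2 / A0 ^ 2))
    (hS0 : S0 = (Q * (m0 / A0) + (p - 1) * (1 / A0)) * A0)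
    (hP1 : P1 = p * (-(ν + m0 * K) / A0 + m0 ^ 2 / A0 ^ 2))
    (hS1 : S1 = (Q * (-(ν + m0 * K) / A0 + m0 ^ 2 / A0 ^ 2)
      + (-m0 * K / A0 - 2 * ν / A0 + m0 ^ 2 / A0 ^ 2)
      + (p - 1) * (m0 / A0 ^ 2 - m0 ^ 2 / A0 ^ 2)) * A0
      - (Q * (m0 / A0) + (p - 1) * (1 / A0)) * m0)
    (hcA : cA = Q * (-2 * P0)) (hcB : cB = - (p * (-2 * S0))) :
    ((cA * Q + Q * cA) * (-A0 * (p * (p - 1)))
      + (cA * (- p * A0) + Q * cB + (cB * Q + (- p * A0) * cA)) * (p * Q * (-m0))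
      + (cB * (- p * A0) + (- p * A0) * cB) * ((2 * 0 - K) * (Q * (Q - 1))))
    + (Q * Q * (-(-2 * S0) * (p * (p - 1))) + (Q * (- p * A0) + (- p * A0) * Q) *
        (p * Q * (-2 * S1))
      + (- p * A0) * (- p * A0) * ((2 * (-2 * P1) - (-2 * R0)) * (Q * (Q - 1)))) =
      p ^ 2 * Q ^ 2 * A0 ^ 2 * orbFt p Q K A0 m0 ν := by
  -- use `M = m0 / A0`, `N = 1 / A0`
  obtain ⟨M, hM⟩ : ∃ M, M = m0 / A0 := ⟨_, rfl⟩
  have hm : m0 = A0 * M := by rw [hM]; field_simp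
  have hM2 : 2 * M * (p * Q * A0) = (Q - 1) * K * (p * A0) + (p - 1) * Q := by
    rw [hM, hm0]
    field_simp
  have hS0' : S0 = Q * M * A0 + (p - 1) := by
    rw [hS0, ← hM]
    field_simp
  have hP0' : P0 = (Q - 1) * K + p * M := by rw [hP0, hM]
  have hA' : A0 * P1 = p * (-(ν + A0 * M * K) + A0 * M ^ 2) := by
    rw [hP1, hm]
    field_simp
  have hR' : A0 * R0 = ((Q - 1) * K + p * M) * K * A0
        + p * (-(A0 * M) * K - 2 * ν + A0 * M ^ 2) := by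
    rw [hR0, hm]
    field_simp
  have hS1' : S1 = Q * (-(ν + A0 * M * K) + A0 * M ^ 2)
      + (-(A0 * M) * K - 2 * ν + A0 * M ^ 2)
      + (p - 1) * (M - A0 * M ^ 2)
      - (Q * M * A0 + (p - 1)) * M := by
    rw [hS1, hm]
    field_simp
  have hF : p ^ 2 * Q ^ 2 * A0 ^ 2 * orbFt p Q K A0 m0 ν =
      2 * (p + Q) * ((Q - 1) * K * (p - 1) * A0 * p * Q
        - ((Q - 1) * K * p * A0 + (p - 1) * Q) ^ 2 / 4)
      + (p + Q) ^ 2 * ((Q - 1) * K * p * A0 + (p - 1) * Q) ^ 2 / (2 * p * Q)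
      + 4 * (Q + 2) * p ^ 2 * Q ^ 2 * A0 * (-(ν + A0 * M * K) + A0 * M ^ 2)
      + 2 * p * Q ^ 2 * A0 * M * (2 * (K - M) * A0 * p + Q * (p - 1) * (M * A0 - 1)) := by
    unfold orbFt
    rw [hm]
    field_simp
    ring
  rw [hF, hcA, hcB, hP0', hS0', hS1', hm]
  have e : (- p * A0) * (- p * A0) * ((2 * (-2 * P1) - (-2 * R0)) * (Q * (Q - 1))) =
      p ^ 2 * A0 * ((-4) * (A0 * P1) + 2 * (A0 * R0)) * (Q * (Q - 1)) := by ring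
  rw [e, hA', hR']
  have hM3 : M = ((Q - 1) * K * (p * A0) + (p - 1) * Q) / (2 * (p * Q * A0)) := by
    rw [← hM2]
    field_simp
  rw [hM3]
  field_simp
  ring

end Pool.Agent.RF.H58
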