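import Mathlib

/-!
# Time derivatives and space derivatives commute (on `[0,T] × U`)
-/

noncomputable section

open scoped ContDiff Topology
open Set

namespace Pool.Agent.RF.H58

variable {X Y : Type} [NormedAddCommGroup X] [NormedSpace ℝ X]
  [NormedAddCommGroup Y] [NormedSpace ℝ Y] {T : ℝ} {U : Set X} {F : ℝ → X → Y}

/-- uncurried -/
def unc (F : ℝ → X → Y) (p : ℝ × X) : Y := F p.1 p.2

theorem uniqueDiffOn_S (hT : 0 < T) (hU : IsOpen U) : UniqueDiffOn ℝ (Icc 0 T ×ˢ U) :=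
  (uniqueDiffOn_Icc hT).prod hU.uniqueDiffOn

theorem hasFDerivWithinAt_unc (hF : ContDiffOn ℝ ∞ (unc F) (Icc 0 T ×ˢ U)) {p : ℝ × X}
    (hp : p ∈ Icc 0 T ×ˢ U) :
    HasFDerivWithinAt (unc F) (fderivWithin ℝ (unc F) (Icc 0 T ×ˢ U) p) (Icc 0 T ×ˢ U) p :=
  ((hF.differentiableOn (by simp)) p hp).hasFDerivWithinAt

/-- space derivative -/
theorem hasFDerivAt_space (hU : IsOpen U) (hF : ContDiffOn ℝ ∞ (unc F) (Icc 0 T ×ˢ U)) {t : ℝ}
    (ht : t ∈ Icc 0 T) {x : X} (hx : x ∈ U) :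
    HasFDerivAt (F t) ((fderivWithin ℝ (unc F) (Icc 0 T ×ˢ U) (t, x)).comp
      (ContinuousLinearMap.inr ℝ ℝ X)) x := by
  have h1 := hasFDerivWithinAt_unc hF (p := (t, x)) ⟨ht, hx⟩
  have h2 : HasFDerivWithinAt (fun y : X => (t, y)) (ContinuousLinearMap.inr ℝ ℝ X) U x :=
    (hasFDerivAt_prodMk_right t x).hasFDerivWithinAt
  have h3 := h1.comp x h2 (fun y hy => ⟨ht, hy⟩)
  exact h3.hasFDerivAt (hU.mem_nhds hx)

/-- time derivative -/
theorem hasDerivWithinAt_time (hF : ContDiffOn ℝ ∞ (unc F) (Icc 0 T ×ˢ U)) {t : ℝ}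
    (ht : t ∈ Icc 0 T) {x : X} (hx : x ∈ U) :
    HasDerivWithinAt (fun s => F s x) (fderivWithin ℝ (unc F) (Icc 0 T ×ˢ U) (t, x) (1, 0))
      (Icc 0 T) t := by
  have h1 := hasFDerivWithinAt_unc hF (p := (t, x)) ⟨ht, hx⟩
  have h2 : HasFDerivWithinAt (fun s : ℝ => (s, x)) (ContinuousLinearMap.inl ℝ ℝ X) (Icc 0 T) t :=
    (hasFDerivAt_prodMk_left t x).hasFDerivWithinAt
  have h3 := h1.comp t h2 (show MapsTo (fun s : ℝ => (s, x)) (Icc 0 T) (Icc 0 T ×ˢ U) from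
    fun y hy => ⟨hy, hx⟩)
  exact h3.hasDerivWithinAt.congr_deriv (by simp)

theorem contDiffOn_space (hT : 0 < T) (hU : IsOpen U)
    (hF : ContDiffOn ℝ ∞ (unc F) (Icc 0 T ×ˢ U)) :
    ContDiffOn ℝ ∞ (unc fun t x => fderiv ℝ (F t) x) (Icc 0 T ×ˢ U) := by
  have h1 : ContDiffOn ℝ ∞ (fderivWithin ℝ (unc F) (Icc 0 T ×ˢ U)) (Icc 0 T ×ˢ U) :=
    hF.fderivWithin (uniqueDiffOn_S hT hU) (by simp)
  have h2 : ContDiffOn ℝ ∞ (fun p => (fderivWithin ℝ (unc F) (Icc 0 T ×ˢ U) p).comp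
      (ContinuousLinearMap.inr ℝ ℝ X)) (Icc 0 T ×ˢ U) := h1.clm_comp contDiffOn_const
  refine h2.congr fun p hp => ?_
  exact (hasFDerivAt_space hU hF hp.1 hp.2).fderiv

theorem contDiffOn_time (hT : 0 < T) (hU : IsOpen U)
    (hF : ContDiffOn ℝ ∞ (unc F) (Icc 0 T ×ˢ U)) :
    ContDiffOn ℝ ∞ (fun p => fderivWithin ℝ (unc F) (Icc 0 T ×ˢ U) p (1, 0)) (Icc 0 T ×ˢ U) :=
  (hF.fderivWithin (uniqueDiffOn_S hT hU) (by simp)).clm_apply contDiffOn_const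

theorem eq_time (hT : 0 < T) (hF : ContDiffOn ℝ ∞ (unc F) (Icc 0 T ×ˢ U)) {Ft : ℝ → X → Y}
    (h : ∀ t ∈ Icc 0 T, ∀ x ∈ U, HasDerivWithinAt (fun s => F s x) (Ft t x) (Icc 0 T) t)
    {t : ℝ} (ht : t ∈ Icc 0 T) {x : X} (hx : x ∈ U) :
    Ft t x = fderivWithin ℝ (unc F) (Icc 0 T ×ˢ U) (t, x) (1, 0) :=
  (uniqueDiffOn_Icc hT t ht).eq_deriv _ (h t ht x hx) (hasDerivWithinAt_time hF ht hx)

theorem contDiffOn_Ft (hT : 0 < T) (hU : IsOpen U)
    (hF : ContDiffOn ℝ ∞ (unc F) (Icc 0 T ×ˢ U)) {Ft : ℝ → X → Y}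
    (h : ∀ t ∈ Icc 0 T, ∀ x ∈ U, HasDerivWithinAt (fun s => F s x) (Ft t x) (Icc 0 T) t) :
    ContDiffOn ℝ ∞ (unc Ft) (Icc 0 T ×ˢ U) :=
  (contDiffOn_time hT hU hF).congr fun p hp => eq_time (F := F) hT hF h hp.1 hp.2

/-- the time derivative of the space derivative is the space derivative of the time derivative -/
theorem mix (hT : 0 < T) (hU : IsOpen U)
    (hF : ContDiffOn ℝ ∞ (unc F) (Icc 0 T ×ˢ U)) {Ft : ℝ → X → Y}
    (h : ∀ t ∈ Icc 0 T, ∀ x ∈ U, HasDerivWithinAt (fun s => F s x) (Ft t x) (Icc 0 T) t)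
    {t : ℝ} (ht : t ∈ Icc 0 T) {x : X} (hx : x ∈ U) :
    HasDerivWithinAt (fun s => fderiv ℝ (F s) x) (fderiv ℝ (Ft t) x) (Icc 0 T) t := by
  set S := Icc 0 T ×ˢ U with hS
  have hud := uniqueDiffOn_S hT hU
  have hp : (t, x) ∈ S := ⟨ht, hx⟩
  have h1 : ContDiffOn ℝ ∞ (fderivWithin ℝ (unc F) S) S := hF.fderivWithin hud (by simp)
  have h2 : HasFDerivWithinAt (fderivWithin ℝ (unc F) S)
      (fderivWithin ℝ (fderivWithin ℝ (unc F) S) S (t, x)) S (t, x) :=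
    ((h1.differentiableOn (by simp)) _ hp).hasFDerivWithinAt
  have hcl : (t, x) ∈ closure (interior S) := by
    rw [hS, interior_prod_eq, interior_Icc, hU.interior_eq, closure_prod_eq, closure_Ioo hT.ne]
    exact ⟨ht, subset_closure hx⟩
  have hsym : IsSymmSndFDerivWithinAt ℝ (unc F) S (t, x) := by
    apply (hF _ hp).isSymmSndFDerivWithinAt _ hud hcl hp
    simp only [minSmoothness_of_isRCLikeNormedField]
    exact WithTop.coe_le_coe.2 le_top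
  -- time derivative of the space derivative
  have h3 : HasFDerivWithinAt (fun s : ℝ => (s, x)) (ContinuousLinearMap.inl ℝ ℝ X) (Icc 0 T) t :=
    (hasFDerivAt_prodMk_left t x).hasFDerivWithinAt
  have h4 : HasDerivWithinAt (fun s => fderivWithin ℝ (unc F) S (s, x))
      (fderivWithin ℝ (fderivWithin ℝ (unc F) S) S (t, x) (1, 0)) (Icc 0 T) t :=
    (h2.comp t h3 (show MapsTo (fun s : ℝ => (s, x)) (Icc 0 T) S from
      fun y hy => ⟨hy, hx⟩)).hasDerivWithinAt.congr_deriv (by simp)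
  have h5 : HasDerivWithinAt (fun s => (fderivWithin ℝ (unc F) S (s, x)).comp
      (ContinuousLinearMap.inr ℝ ℝ X))
      ((fderivWithin ℝ (fderivWithin ℝ (unc F) S) S (t, x) (1, 0)).comp
        (ContinuousLinearMap.inr ℝ ℝ X)) (Icc 0 T) t := by
    have h6 := h4.clm_comp (hasDerivWithinAt_const t (Icc 0 T) (ContinuousLinearMap.inr ℝ ℝ X))
    simpa using h6
  -- space derivative of the time derivative
  have h7 : HasFDerivAt (Ft t) ((ContinuousLinearMap.apply ℝ Y ((1 : ℝ), (0 : X))).comp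
      ((fderivWithin ℝ (fderivWithin ℝ (unc F) S) S (t, x)).comp
        (ContinuousLinearMap.inr ℝ ℝ X))) x := by
    have h8 : HasFDerivWithinAt (fun y : X => (t, y)) (ContinuousLinearMap.inr ℝ ℝ X) U x :=
      (hasFDerivAt_prodMk_right t x).hasFDerivWithinAt
    have h9 := (h2.comp x h8 (fun y hy => ⟨ht, hy⟩)).hasFDerivAt (hU.mem_nhds hx)
    have h10 := ((ContinuousLinearMap.apply ℝ Y ((1 : ℝ), (0 : X))).hasFDerivAt).comp x h9
    apply h10.congr_of_eventuallyEq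
    filter_upwards [hU.mem_nhds hx] with y hy
    exact eq_time hT hF h ht hy
  rw [h7.fderiv]
  have h11 : (ContinuousLinearMap.apply ℝ Y ((1 : ℝ), (0 : X))).comp
      ((fderivWithin ℝ (fderivWithin ℝ (unc F) S) S (t, x)).comp
        (ContinuousLinearMap.inr ℝ ℝ X)) =
      (fderivWithin ℝ (fderivWithin ℝ (unc F) S) S (t, x) (1, 0)).comp
        (ContinuousLinearMap.inr ℝ ℝ X) := by
    ext v
    simpa using hsym (0, v) (1, 0)
  rw [h11]
  refine h5.congr (fun s hs => ?_) ?_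
  · exact (hasFDerivAt_space hU hF hs hx).fderiv
  · exact (hasFDerivAt_space hU hF ht hx).fderiv

end Pool.Agent.RF.H58
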