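import Pool.Agent.Helper58_RF.Prof
import Pool.Agent.Helper58_RF.Frame
import Pool.Agent.Helper58_RF.Mix
import Pool.Agent.Helper58_RF.Ident

/-!
# Module EVO: the Ricci flow leaves the closed cone (MP_a23110_gt squad, helper58)
-/

noncomputable section

open scoped ContDiff Topology RealInnerProductSpace
set_option maxSynthPendingDepth 3
set_option linter.unusedSectionVars false
open Set

namespace Pool.Agent.RF.H58

open Pool.Agent.RF

section chrdiff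

variable {ι : Type} [Fintype ι] [DecidableEq ι] {T : ℝ} {U : Set (E ι)}
  {G : ℝ → E ι → Bil (E ι)}

theorem smooth_chris' (hT : 0 < T) (hU : IsOpen U) (hG : ContDiffOn ℝ ∞ (unc G) (Icc 0 T ×ˢ U))
    (hinv : ∀ t ∈ Icc 0 T, ∀ x ∈ U, (G t x).IsInvertible) (v w : E ι) :
    ContDiffOn ℝ ∞ (fun p : ℝ × E ι => chris (G p.1) p.2 v w) (Icc 0 T ×ˢ U) := by
  have hD : ContDiffOn ℝ ∞ (fun p : ℝ × E ι => fderiv ℝ (G p.1) p.2) (Icc 0 T ×ˢ U) :=
    contDiffOn_space hT hU hG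
  have hi : ContDiffOn ℝ ∞ (fun p : ℝ × E ι => (G p.1 p.2).inverse) (Icc 0 T ×ˢ U) := by
    intro q hq
    exact ((hinv q.1 hq.1 q.2 hq.2).contDiffAt_map_inverse).comp_contDiffWithinAt q (hG q hq)
  have h3 : ContDiffOn ℝ ∞ (fun p : ℝ × E ι =>
      (((ContinuousLinearMap.apply ℝ ℝ w).comp
        ((ContinuousLinearMap.apply ℝ (E ι →L[ℝ] ℝ) v).comp (fderiv ℝ (G p.1) p.2))) :
          E ι →L[ℝ] ℝ)) (Icc 0 T ×ˢ U) :=
    contDiffOn_const.clm_comp (contDiffOn_const.clm_comp hD)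
  have hk : ContDiffOn ℝ ∞ (fun p : ℝ × E ι => kos (fderiv ℝ (G p.1) p.2) v w)
      (Icc 0 T ×ˢ U) := by
    unfold kos
    apply ContDiffOn.const_smul
    apply ContDiffOn.sub _ h3
    exact ((hD.clm_apply contDiffOn_const).clm_apply contDiffOn_const).add
      ((hD.clm_apply contDiffOn_const).clm_apply contDiffOn_const)
  exact hi.clm_apply hk

theorem diff_chris (hT : 0 < T) (hU : IsOpen U) (hG : ContDiffOn ℝ ∞ (unc G) (Icc 0 T ×ˢ U))
    (hinv : ∀ t ∈ Icc 0 T, ∀ x ∈ U, (G t x).IsInvertible) {x : E ι} (hx : x ∈ U) (v w : E ι) :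
    DifferentiableWithinAt ℝ (fun t => chris (G t) x v w) (Icc 0 T) 0 := by
  have h1 := (smooth_chris' hT hU hG hinv v w).comp (s := Icc 0 T) (f := fun t : ℝ => (t, x))
    (contDiffOn_id.prodMk contDiffOn_const) (fun t ht => ⟨ht, hx⟩)
  exact (h1.differentiableOn (by simp)) 0 ⟨le_refl 0, hT.le⟩

/-- quadratic terms in the Christoffel symbols do not contribute to first order -/
theorem quad_chris (hT : 0 < T) (hU : IsOpen U) (hG : ContDiffOn ℝ ∞ (unc G) (Icc 0 T ×ˢ U))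
    (hinv : ∀ t ∈ Icc 0 T, ∀ x ∈ U, (G t x).IsInvertible) {x : E ι} (hx : x ∈ U)
    (h0 : fderiv ℝ (G 0) x = 0) (v w u z : E ι) :
    HasDerivWithinAt (fun t => G t x (chris (G t) x v w) (chris (G t) x u z)) 0 (Icc 0 T) 0 := by
  have hc : ∀ a b, chris (G 0) x a b = 0 := by
    intro a b
    unfold chris
    rw [h0]
    have : kos (0 : E ι →L[ℝ] Bil (E ι)) a b = 0 := by
      ext z
      simp [kos_apply]
    rw [this, map_zero]
  have h1 := (diff_chris hT hU hG hinv hx v w).hasDerivWithinAt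
  have h2 := (diff_chris hT hU hG hinv hx u z).hasDerivWithinAt
  have h3 := hasDerivWithinAt_time hG (t := 0) ⟨le_refl 0, hT.le⟩ hx
  have h4 := (h3.clm_apply h1).clm_apply h2
  refine h4.congr_deriv ?_
  simp [hc]

end chrdiff

section basis

variable {α β : Type} [Fintype α] [DecidableEq α] [Fintype β] [DecidableEq β]

theorem prl_inl (i : α) : (prl (eb (Sum.inl i) : E (α ⊕ β)) : E α) = eb i := by
  ext k
  simp [eb, Pi.single_apply]

theorem prl_inr (i : β) : (prl (eb (Sum.inr i) : E (α ⊕ β)) : E α) = 0 := by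
  ext k
  simp [eb, Pi.single_apply]

theorem prr_inl (i : α) : (prr (eb (Sum.inl i) : E (α ⊕ β)) : E β) = 0 := by
  ext k
  simp [eb, Pi.single_apply]

theorem prr_inr (i : β) : (prr (eb (Sum.inr i) : E (α ⊕ β)) : E β) = eb i := by
  ext k
  simp [eb, Pi.single_apply]

theorem inner_eb {ι : Type} [Fintype ι] [DecidableEq ι] (i j : ι) :
    ⟪(eb i : E ι), eb j⟫ = if i = j then 1 else 0 := by
  rw [eb, eb, EuclideanSpace.inner_single_left]
  simp [Pi.single_apply, eq_comm]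

/-- value of the second order expression on a pair of basis vectors -/
def rv (D : E (α ⊕ β) →L[ℝ] E (α ⊕ β) →L[ℝ] Bil (E (α ⊕ β))) (a b : α ⊕ β) : ℝ :=
  (1/2 : ℝ) * (D (eb a) (eb a) (eb b) (eb b) + D (eb b) (eb b) (eb a) (eb a)
    - D (eb a) (eb b) (eb b) (eb a) - D (eb b) (eb a) (eb a) (eb b))

variable {P R S : ℝ → ℝ} (hP : ContDiffAt ℝ ∞ P 0) (hR : ContDiffAt ℝ ∞ R 0)
  (hS : ContDiffAt ℝ ∞ S 0) {Φ : E (α ⊕ β) → Bil (E (α ⊕ β))} (hΦ : ContDiffAt ℝ ∞ Φ 0)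
  (he : Φ =ᶠ[𝓝 0] Phi P R S)
include hP hR hS hΦ he

theorem rv_rr (i j : β) : rv (fderiv ℝ (fderiv ℝ Φ) 0) (Sum.inr i : α ⊕ β) (Sum.inr j) =
    (2 * deriv P 0 - R 0) * (1 - if i = j then 1 else 0) := by
  unfold rv
  simp only [jet2 hP hR hS hΦ he, prl_inr, prr_inr, inner_eb, inner_zero_left, inner_zero_right]
  by_cases h : i = j
  · subst h
    simp
  · have h' : ¬ j = i := fun h'' => h h''.symm
    simp [h, h']
    ring

theorem rv_ll (i j : α) : rv (fderiv ℝ (fderiv ℝ Φ) 0) (Sum.inl i : α ⊕ β) (Sum.inl j) =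
    -S 0 * (1 - if i = j then 1 else 0) := by
  unfold rv
  simp only [jet2 hP hR hS hΦ he, prl_inl, prr_inl, inner_eb, inner_zero_left, inner_zero_right]
  by_cases h : i = j
  · subst h
    simp
  · have h' : ¬ j = i := fun h'' => h h''.symm
    simp [h, h']
    ring

theorem rv_lr (i : α) (j : β) : rv (fderiv ℝ (fderiv ℝ Φ) 0) (Sum.inl i : α ⊕ β) (Sum.inr j) =
    deriv S 0 := by
  unfold rv
  simp only [jet2 hP hR hS hΦ he, prl_inl, prr_inl, prl_inr, prr_inr, inner_eb, inner_zero_left,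
    inner_zero_right]
  simp

theorem rv_rl (i : α) (j : β) : rv (fderiv ℝ (fderiv ℝ Φ) 0) (Sum.inr j : α ⊕ β) (Sum.inl i) =
    deriv S 0 := by
  unfold rv
  simp only [jet2 hP hR hS hΦ he, prl_inl, prr_inl, prl_inr, prr_inr, inner_eb, inner_zero_left,
    inner_zero_right]
  simp

theorem rv_sum (a b c d : ℝ) : ∑ x : α ⊕ β, ∑ y : α ⊕ β,
    (Sum.elim (fun _ => Sum.elim (fun _ => a) (fun _ => b) y)
      (fun _ => Sum.elim (fun _ => c) (fun _ => d) y) x : ℝ) *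
      rv (fderiv ℝ (fderiv ℝ Φ) 0) x y =
    a * (-S 0 * ((Fintype.card α : ℝ) * (Fintype.card α - 1)))
      + (b + c) * (Fintype.card α * Fintype.card β * deriv S 0)
      + d * ((2 * deriv P 0 - R 0) * ((Fintype.card β : ℝ) * (Fintype.card β - 1))) := by
  have hs : ∀ (κ : Type) [Fintype κ] [DecidableEq κ] (e f : ℝ),
      ∑ x : κ, ∑ y : κ, e * (f * (1 - if x = y then (1 : ℝ) else 0)) =
        e * (f * ((Fintype.card κ : ℝ) * (Fintype.card κ - 1))) := by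
    intro κ _ _ e f
    have : ∀ x : κ, ∑ y : κ, e * (f * (1 - if x = y then (1 : ℝ) else 0)) =
        e * (f * (Fintype.card κ - 1)) := by
      intro x
      rw [← Finset.mul_sum, ← Finset.mul_sum, Finset.sum_sub_distrib]
      simp
    simp only [this]
    simp
    ring
  simp only [Fintype.sum_sum_type, Sum.elim_inl, Sum.elim_inr, Finset.sum_add_distrib,
    rv_rr hP hR hS hΦ he, rv_ll hP hR hS hΦ he, rv_lr hP hR hS hΦ he, rv_rl hP hR hS hΦ he, hs]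
  simp
  ring

end basis

section main

variable {α β : Type} [Fintype α] [DecidableEq α] [Fintype β] [DecidableEq β]

theorem neg_of_deriv {f : ℝ → ℝ} {f' T : ℝ} (hT : 0 < T) (h : HasDerivWithinAt f f' (Icc 0 T) 0)
    (h0 : f 0 = 0) (hf' : f' < 0) : ∀ δ > 0, ∃ t ∈ Ioc 0 T, t < δ ∧ f t < 0 := by
  intro δ hδ
  have h1 : HasDerivWithinAt f f' (Ioc 0 T) 0 := h.mono Ioc_subset_Icc_self
  rw [hasDerivWithinAt_iff_tendsto_slope' (by simp)] at h1
  have h2 := h1.eventually (gt_mem_nhds hf')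
  have h3 : ∀ᶠ t in 𝓝[Ioc 0 T] (0 : ℝ), t < δ :=
    nhdsWithin_le_nhds (gt_mem_nhds hδ)
  have h4 : ∀ᶠ t in 𝓝[Ioc 0 T] (0 : ℝ), t ∈ Ioc 0 T := self_mem_nhdsWithin
  have hne : (𝓝[Ioc 0 T] (0 : ℝ)).NeBot := by
    rw [nhdsWithin_Ioc_eq_nhdsGT hT]
    infer_instance
  obtain ⟨t, ht1, ht2, ht3⟩ := (h2.and (h3.and h4)).exists
  refine ⟨t, ht3, ht2, ?_⟩
  rw [slope_def_field, h0, sub_zero, sub_zero] at ht1
  by_contra hge
  exact absurd ht1 (not_lt.2 (div_nonneg (not_lt.1 hge) ht3.1.le))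

theorem evo (hRL : RicLocStatement) : EvoStatement := by
  intro α β _ _ _ _ K A0 m0 ν T D G hα hβ hK hA0 hT hF hFt hD h0 hsm hmet hG0 hflow
  have hG : ContDiffOn ℝ ∞ (unc G) (Icc 0 T ×ˢ D) := hsm
  have h0T : (0 : ℝ) ∈ Icc 0 T := ⟨le_refl 0, hT.le⟩
  have hinv : ∀ t ∈ Icc 0 T, ∀ x ∈ D, (G t x).IsInvertible := fun t ht x hx =>
    (hmet t ht).inv hx
  obtain ⟨ρ, hρ, hprof, hkρ⟩ := exists_rho (m0 := m0) (ν := ν) hK hA0
  -- the initial metric
  have hG0' : ∀ y ∈ D, G 0 y = gloc (eta K) (Apr A0 m0 ν) y := hG0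
  have hΦ0 : ContDiffAt ℝ ∞ (G 0) 0 := (hmet 0 h0T).contDiffAt h0
  have hger0 : G 0 =ᶠ[𝓝 0] Phi (fun _ => 1) (eta K) (Apr A0 m0 ν) := by
    filter_upwards [hD.mem_nhds h0] with y hy
    rw [hG0' y hy, gloc_eq]
  -- the time derivative
  obtain ⟨Gt, hGtdef⟩ : ∃ Gt : ℝ → E (α ⊕ β) → Bil (E (α ⊕ β)), Gt =
    fun t y => fderivWithin ℝ (unc G) (Icc 0 T ×ˢ D) (t, y) (1, 0) := ⟨_, rfl⟩
  have hGt : ∀ t ∈ Icc 0 T, ∀ x ∈ D, HasDerivWithinAt (fun s => G s x) (Gt t x) (Icc 0 T) t := by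
    intro t ht x hx
    rw [hGtdef]
    exact hasDerivWithinAt_time hG ht hx
  have hGtS : ContDiffOn ℝ ∞ (unc Gt) (Icc 0 T ×ˢ D) := contDiffOn_Ft hT hD hG hGt
  have hΦt : ContDiffAt ℝ ∞ (Gt 0) 0 := by
    have : ContDiffOn ℝ ∞ (fun x => unc Gt (0, x)) D :=
      hGtS.comp (contDiffOn_const.prodMk contDiffOn_id) (fun x hx => ⟨h0T, hx⟩)
    exact this.contDiffAt (hD.mem_nhds h0)
  have hGtval : ∀ t ∈ Icc 0 T, ∀ x ∈ D, ∀ v w, Gt t x v w = -2 * ric (G t) x v w := by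
    intro t ht x hx v w
    have h1 := ((hGt t ht x hx).clm_apply (hasDerivWithinAt_const t (Icc 0 T) v)).clm_apply
      (hasDerivWithinAt_const t (Icc 0 T) w)
    have h2 := (uniqueDiffOn_Icc hT t ht).eq_deriv _ h1 (hflow t ht x hx v w)
    simpa using h2
  set p : ℝ := (Fintype.card α : ℝ) with hp
  set Q : ℝ := (Fintype.card β : ℝ) with hQ
  have hgert : Gt 0 =ᶠ[𝓝 0] Phi (fun τ => -2 * Pr p Q K A0 m0 ν τ)
      (fun τ => -2 * Rr p Q K A0 m0 ν τ) (fun τ => -2 * Sr p Q K A0 m0 ν τ) := by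
    have hdom : DomG α β ρ ∈ 𝓝 (0 : E (α ⊕ β)) := by
      have : IsOpen ({y : E (α ⊕ β) | ‖(prr y : E β)‖ ^ 2 < ρ} ∩
          {y : E (α ⊕ β) | ‖(prl y : E α)‖ ^ 2 < 1}) :=
        (isOpen_lt (by fun_prop) continuous_const).inter (isOpen_lt (by fun_prop) continuous_const)
      refine this.mem_nhds ⟨?_, ?_⟩
      · simpa using hρ
      · simp
    filter_upwards [hD.mem_nhds h0, hdom] with y hy hy2
    ext v w
    have hk := hkρ _ hy2.1
    rw [hGtval 0 h0T y hy]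
    have hgy : G 0 =ᶠ[𝓝 y] gloc (eta K) (Apr A0 m0 ν) := by
      filter_upwards [hD.mem_nhds hy] with z hz
      exact hG0' z hz
    rw [ric_congr hgy, hRL α β (eta K) (Apr A0 m0 ν) ρ hprof y hy2 v w, fK1_eta hk, fkap_eta hk,
      fM_eq hk, fN_eq hk, flam_eq hk, fP_eta hk]
    simp only [Phi, g1, g3, Rr, Sr, Pr, _root_.add_apply, _root_.smul_apply, smul_eq_mul]
    ring
  have hsP := (contDiffAt_const (c := (-2 : ℝ))).mul (smooth_P (m0 := m0) (ν := ν) hK hA0 p Q)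
  have hsR := (contDiffAt_const (c := (-2 : ℝ))).mul (smooth_R (m0 := m0) (ν := ν) hK hA0 p Q)
  have hsS := (contDiffAt_const (c := (-2 : ℝ))).mul (smooth_S (m0 := m0) (ν := ν) hK hA0 p Q)
  have hs1 : ContDiffAt ℝ ∞ (fun _ : ℝ => (1 : ℝ)) 0 := contDiffAt_const
  have hse := smooth_eta (K := K) hK hA0
  have hsA := smooth_A (m0 := m0) (ν := ν) hK hA0
  have hdG0 : fderiv ℝ (G 0) 0 = 0 := jet1 hs1 hse hsA hΦ0 hger0
  -- second derivatives
  have hD2 := mix (F := fun t y => fderiv ℝ (G t) y) (Ft := fun t y => fderiv ℝ (Gt t) y) hT hD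
    (contDiffOn_space hT hD hG) (fun t ht x hx => mix hT hD hG hGt ht hx) h0T h0
  have hDv : ∀ x y z w, HasDerivWithinAt (fun t => fderiv ℝ (fderiv ℝ (G t)) 0 x y z w)
      (fderiv ℝ (fderiv ℝ (Gt 0)) 0 x y z w) (Icc 0 T) 0 := by
    intro x y z w
    have h1 := (((hD2.clm_apply (hasDerivWithinAt_const 0 (Icc 0 T) x)).clm_apply
      (hasDerivWithinAt_const 0 (Icc 0 T) y)).clm_apply
      (hasDerivWithinAt_const 0 (Icc 0 T) z)).clm_apply (hasDerivWithinAt_const 0 (Icc 0 T) w)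
    refine h1.congr_deriv ?_
    simp
  have hrv : ∀ a b : α ⊕ β, HasDerivWithinAt (fun t => rv (fderiv ℝ (fderiv ℝ (G t)) 0) a b)
      (rv (fderiv ℝ (fderiv ℝ (Gt 0)) 0) a b) (Icc 0 T) 0 := by
    intro a b
    exact ((((hDv _ _ _ _).add (hDv _ _ _ _)).sub (hDv _ _ _ _)).sub (hDv _ _ _ _)).const_mul _
  -- the test matrix
  obtain ⟨ψ, hψdef⟩ : ∃ ψ : ℝ → α ⊕ β → ℝ, ψ = fun t => Sum.elim
    (fun _ => ∑ j : β, G t 0 (eb (Sum.inr j)) (eb (Sum.inr j)))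
    (fun _ => - ∑ i : α, G t 0 (eb (Sum.inl i)) (eb (Sum.inl i))) := ⟨_, rfl⟩
  have hψtr : ∀ t, ∑ a, ψ t a * G t 0 (eb a) (eb a) = 0 := by
    intro t
    rw [hψdef]
    simp only [Fintype.sum_sum_type, Sum.elim_inl, Sum.elim_inr, ← Finset.mul_sum]
    ring
  have hG00 : G 0 0 = (1 : ℝ) • inR + Apr A0 m0 ν 0 • inL := jet0 hs1 hse hsA hΦ0 hger0
  have hA00 : Apr A0 m0 ν 0 = A0 := by simp [Apr]
  have hGt00 := jet0 hsP hsR hsS hΦt hgert
  have hψ0 : ψ 0 = Sum.elim (fun _ => Q) (fun _ => - p * A0) := by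
    rw [hψdef]
    funext a
    rcases a with a | a
    · simp only [Sum.elim_inl, hG00, _root_.add_apply, _root_.smul_apply, inR_apply, inL_apply,
        prr_inr, prl_inr, inner_eb, hA00]
      simp [hQ]
    · simp only [Sum.elim_inr, hG00, _root_.add_apply, _root_.smul_apply, inR_apply, inL_apply,
        prr_inl, prl_inl, inner_eb, hA00]
      simp [hp]
  obtain ⟨ψ', hψ'def⟩ : ∃ ψ' : α ⊕ β → ℝ, ψ' = Sum.elim (fun _ => Q * (-2 * Pr p Q K A0 m0 ν 0))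
    (fun _ => - (p * (-2 * Sr p Q K A0 m0 ν 0))) := ⟨_, rfl⟩
  have hψ' : ∀ a, HasDerivWithinAt (fun t => ψ t a) (ψ' a) (Icc 0 T) 0 := by
    have hg : ∀ x y, HasDerivWithinAt (fun t => G t 0 x y) (Gt 0 0 x y) (Icc 0 T) 0 := by
      intro x y
      have h1 := ((hGt 0 h0T 0 h0).clm_apply (hasDerivWithinAt_const 0 (Icc 0 T) x)).clm_apply
        (hasDerivWithinAt_const 0 (Icc 0 T) y)
      refine h1.congr_deriv ?_
      simp
    intro a
    rcases a with a | a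
    · have h1 : HasDerivWithinAt (fun t => ∑ j : β, G t 0 (eb (Sum.inr j)) (eb (Sum.inr j)))
          (∑ j : β, Gt 0 0 (eb (Sum.inr j)) (eb (Sum.inr j))) (Icc 0 T) 0 :=
        HasDerivWithinAt.fun_sum fun j _ => hg _ _
      rw [hψdef, hψ'def]
      refine h1.congr_deriv ?_
      simp only [hGt00, _root_.add_apply, _root_.smul_apply, inR_apply, inL_apply,
        prr_inr, prl_inr, inner_eb]
      simp [hQ]
    · have h1 : HasDerivWithinAt (fun t => -∑ j : α, G t 0 (eb (Sum.inl j)) (eb (Sum.inl j)))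
          (-∑ j : α, Gt 0 0 (eb (Sum.inl j)) (eb (Sum.inl j))) (Icc 0 T) 0 :=
        (HasDerivWithinAt.fun_sum fun j _ => hg _ _).neg
      rw [hψdef, hψ'def]
      refine h1.congr_deriv ?_
      simp only [hGt00, _root_.add_apply, _root_.smul_apply, inR_apply, inL_apply,
        prr_inl, prl_inl, inner_eb]
      simp [hp]
  -- the function
  obtain ⟨f, hfdef⟩ : ∃ f : ℝ → ℝ, f = fun t => ∑ a : α ⊕ β, ∑ b : α ⊕ β, ψ t a * ψ t b *
    (rv (fderiv ℝ (fderiv ℝ (G t)) 0) a b - G t 0 (chris (G t) 0 (eb b) (eb a))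
      (chris (G t) 0 (eb a) (eb b)) + G t 0 (chris (G t) 0 (eb a) (eb a))
      (chris (G t) 0 (eb b) (eb b))) := ⟨_, rfl⟩
  have hfq : ∀ t ∈ Icc 0 T, qf4 (G t) 0 (ψ t) = f t := by
    intro t ht
    rw [hfdef]
    unfold qf4
    refine Finset.sum_congr rfl fun a _ => Finset.sum_congr rfl fun b _ => ?_
    rw [riem_formula (hmet t ht) h0]
    rfl
  have hc0 : ∀ a b, chris (G 0) 0 a b = 0 := by
    intro a b
    unfold chris
    rw [hdG0]
    have : kos (0 : E (α ⊕ β) →L[ℝ] Bil (E (α ⊕ β))) a b = 0 := by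
      ext z
      simp [kos_apply]
    rw [this, map_zero]
  have hfd : HasDerivWithinAt f (∑ a : α ⊕ β, ∑ b : α ⊕ β,
      ((ψ' a * ψ 0 b + ψ 0 a * ψ' b) * rv (fderiv ℝ (fderiv ℝ (G 0)) 0) a b
        + ψ 0 a * ψ 0 b * rv (fderiv ℝ (fderiv ℝ (Gt 0)) 0) a b)) (Icc 0 T) 0 := by
    rw [hfdef]
    refine HasDerivWithinAt.fun_sum fun a _ => HasDerivWithinAt.fun_sum fun b _ => ?_
    have h1 := (((hrv a b).sub (quad_chris hT hD hG hinv h0 hdG0 (eb b) (eb a) (eb a) (eb b))).add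
      (quad_chris hT hD hG hinv h0 hdG0 (eb a) (eb a) (eb b) (eb b)))
    have h2 := ((hψ' a).mul (hψ' b)).mul h1
    refine h2.congr_deriv ?_
    simp [hc0]
  have hderivA : deriv (Apr A0 m0 ν) 0 = -m0 := by rw [deriv_Apr]; simp
  have hp2 : (2 : ℝ) ≤ p := by rw [hp]; exact_mod_cast hα
  have hQ2 : (2 : ℝ) ≤ Q := by rw [hQ]; exact_mod_cast hβ
  have hm0 : m0 = A0 / 2 * ((1 - 1 / Q) * K + (1 - 1 / p) * (1 / A0)) := by
    have : orbF p Q K A0 m0 = 0 := hF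
    unfold orbF at this
    have hne : A0 ≠ 0 := hA0.ne'
    have h3 : m0 / A0 = ((1 - 1 / Q) * K + (1 - 1 / p) * (1 / A0)) / 2 := by linarith
    rw [div_eq_iff hne] at h3
    rw [h3]
    ring
  have hp0 : p ≠ 0 := by linarith
  have hQ0 : Q ≠ 0 := by linarith
  have hA0' : A0 ≠ 0 := hA0.ne'
  have hf0 : f 0 = 0 := by
    have e1 : f 0 = ∑ a : α ⊕ β, ∑ b : α ⊕ β,
        (Sum.elim (fun _ => Sum.elim (fun _ => Q * Q) (fun _ => Q * (- p * A0)) b)
          (fun _ => Sum.elim (fun _ => (- p * A0) * Q) (fun _ => (- p * A0) * (- p * A0)) b) a : ℝ) *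
          rv (fderiv ℝ (fderiv ℝ (G 0)) 0) a b := by
      rw [hfdef]
      refine Finset.sum_congr rfl fun a _ => Finset.sum_congr rfl fun b _ => ?_
      simp only [hc0, map_zero, sub_zero, add_zero]
      rw [hψ0]
      rcases a with a | a <;> rcases b with b | b <;> simp
    rw [e1, rv_sum hs1 hse hsA hΦ0 hger0, hA00, hderivA, ← hp, ← hQ]
    have : orbF p Q K A0 m0 = 0 := hF
    have e2 : eta K 0 = K := by simp [eta]
    rw [e2, deriv_const, ident0 p Q K A0 m0 hp0 hQ0 hA0', this, mul_zero]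
  have hf' : (∑ a : α ⊕ β, ∑ b : α ⊕ β,
      ((ψ' a * ψ 0 b + ψ 0 a * ψ' b) * rv (fderiv ℝ (fderiv ℝ (G 0)) 0) a b
        + ψ 0 a * ψ 0 b * rv (fderiv ℝ (fderiv ℝ (Gt 0)) 0) a b)) =
      p ^ 2 * Q ^ 2 * A0 ^ 2 * orbFt p Q K A0 m0 ν := by
    obtain ⟨cA, hcA⟩ : ∃ cA, cA = Q * (-2 * Pr p Q K A0 m0 ν 0) := ⟨_, rfl⟩
    obtain ⟨cB, hcB⟩ : ∃ cB, cB = - (p * (-2 * Sr p Q K A0 m0 ν 0)) := ⟨_, rfl⟩
    have e1 : (∑ a : α ⊕ β, ∑ b : α ⊕ β,
        ((ψ' a * ψ 0 b + ψ 0 a * ψ' b) * rv (fderiv ℝ (fderiv ℝ (G 0)) 0) a b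
        + ψ 0 a * ψ 0 b * rv (fderiv ℝ (fderiv ℝ (Gt 0)) 0) a b)) =
        (∑ a : α ⊕ β, ∑ b : α ⊕ β,
        (Sum.elim (fun _ => Sum.elim (fun _ => cA * Q + Q * cA)
            (fun _ => cA * (- p * A0) + Q * cB) b)
          (fun _ => Sum.elim (fun _ => cB * Q + (- p * A0) * cA)
            (fun _ => cB * (- p * A0) + (- p * A0) * cB) b) a : ℝ) *
          rv (fderiv ℝ (fderiv ℝ (G 0)) 0) a b) +
        ∑ a : α ⊕ β, ∑ b : α ⊕ β,
        (Sum.elim (fun _ => Sum.elim (fun _ => Q * Q) (fun _ => Q * (- p * A0)) b)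
          (fun _ => Sum.elim (fun _ => (- p * A0) * Q) (fun _ => (- p * A0) * (- p * A0)) b) a : ℝ) *
          rv (fderiv ℝ (fderiv ℝ (Gt 0)) 0) a b := by
      rw [← Finset.sum_add_distrib]
      refine Finset.sum_congr rfl fun a _ => ?_
      rw [← Finset.sum_add_distrib]
      refine Finset.sum_congr rfl fun b _ => ?_
      rw [hψ0, hψ'def, hcA, hcB]
      rcases a with a | a <;> rcases b with b | b <;> simp
    have dP : deriv (fun τ => -2 * Pr p Q K A0 m0 ν τ) 0 = -2 * deriv (Pr p Q K A0 m0 ν) 0 :=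
      deriv_const_mul _ ((smooth_P hK hA0 p Q).differentiableAt (by simp))
    have dS : deriv (fun τ => -2 * Sr p Q K A0 m0 ν τ) 0 = -2 * deriv (Sr p Q K A0 m0 ν) 0 :=
      deriv_const_mul _ ((smooth_S hK hA0 p Q).differentiableAt (by simp))
    have e2 : eta K 0 = K := by simp [eta]
    have eM : Mpr K A0 m0 ν 0 = m0 / A0 := by simp [Mpr, hA00]
    have eN : Npr K A0 m0 ν 0 = 1 / A0 := by simp [Npr, hA00]
    have eP : Pr p Q K A0 m0 ν 0 = (Q - 1) * K + p * (m0 / A0) := by rw [Pr, eM]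
    have eR : Rr p Q K A0 m0 ν 0 = ((Q - 1) * K + p * (m0 / A0)) * K
        + p * (-m0 * K / A0 - 2 * ν / A0 + m0 ^ 2 / A0 ^ 2) := by rw [Rr, eP, e2, lam0 hA0]
    have eS : Sr p Q K A0 m0 ν 0 = (Q * (m0 / A0) + (p - 1) * (1 / A0)) * A0 := by
      rw [Sr, eM, eN, hA00]
      ring
    rw [e1, rv_sum hs1 hse hsA hΦ0 hger0, rv_sum hsP hsR hsS hΦt hgert, hA00, hderivA, ← hp, ← hQ,
      e2, dP, dS, deriv_P hK hA0, deriv_S hK hA0, deriv_const]
    exact ident1 p Q K A0 m0 ν hp0 hQ0 (by linarith) hA0' hm0 cA cB (Pr p Q K A0 m0 ν 0)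
      (Rr p Q K A0 m0 ν 0) (Sr p Q K A0 m0 ν 0) _ _ eP eR eS rfl rfl hcA hcB
  rw [hf'] at hfd
  have hneg : p ^ 2 * Q ^ 2 * A0 ^ 2 * orbFt p Q K A0 m0 ν < 0 := by
    have : orbFt p Q K A0 m0 ν < 0 := hFt
    have h5 : 0 < p ^ 2 * Q ^ 2 * A0 ^ 2 := by positivity
    exact mul_neg_of_pos_of_neg h5 this
  intro δ hδ
  obtain ⟨t, ht, htδ, hft⟩ := neg_of_deriv hT hfd hf0 hneg δ hδ
  refine ⟨t, ht, htδ, fun hn => ?_⟩
  have ht' : t ∈ Icc 0 T := ⟨ht.1.le, ht.2⟩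
  have h6 := qf4_nonneg (hmet t ht') h0 hn (ψ t) (hψtr t)
  rw [hfq t ht'] at h6
  linarith

end main

end Pool.Agent.RF.H58
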