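import Pool.Agent.Helper58_RF.Mix
import Pool.Agent.Helper36_RF.Chr
import Pool.Agent.Helper5_RF.Common

/-!
# Module DET: the DeTurck trick (MP_a23110_gt squad, helper58)
-/

noncomputable section

open scoped ContDiff Topology RealInnerProductSpace
set_option maxSynthPendingDepth 3
set_option linter.unusedSectionVars false
open Set

namespace Pool.Agent.RF.H58

open Pool.Agent.RF

variable {ι κ : Type} [Fintype ι] [DecidableEq ι] [Fintype κ] [DecidableEq κ]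
  {T : ℝ} {G : ℝ → E ι → Bil (E ι)} {φ : ℝ → E ι → E ι}

theorem isOpen_Om : IsOpen (Om ι) := isOpen_ne

section Smooth

variable (hT : 0 < T) (hG : ContDiffOn ℝ ∞ (unc G) (Icc 0 T ×ˢ Om ι))
  (hinv : ∀ t ∈ Icc 0 T, ∀ x ∈ Om ι, (G t x).IsInvertible)
include hT hG hinv

theorem smooth_inverse :
    ContDiffOn ℝ ∞ (fun p : ℝ × E ι => (G p.1 p.2).inverse) (Icc 0 T ×ˢ Om ι) := by
  intro q hq
  exact ((hinv q.1 hq.1 q.2 hq.2).contDiffAt_map_inverse).comp_contDiffWithinAt q (hG q hq)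

theorem smooth_chris (v w : E ι) :
    ContDiffOn ℝ ∞ (fun p : ℝ × E ι => chris (G p.1) p.2 v w) (Icc 0 T ×ˢ Om ι) := by
  have hD : ContDiffOn ℝ ∞ (fun p : ℝ × E ι => fderiv ℝ (G p.1) p.2) (Icc 0 T ×ˢ Om ι) :=
    contDiffOn_space hT isOpen_Om hG
  have hi := smooth_inverse hT hG hinv
  have h3 : ContDiffOn ℝ ∞ (fun p : ℝ × E ι =>
      (((ContinuousLinearMap.apply ℝ ℝ w).comp
        ((ContinuousLinearMap.apply ℝ (E ι →L[ℝ] ℝ) v).comp (fderiv ℝ (G p.1) p.2))) :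
          E ι →L[ℝ] ℝ)) (Icc 0 T ×ˢ Om ι) :=
    contDiffOn_const.clm_comp (contDiffOn_const.clm_comp hD)
  have hk : ContDiffOn ℝ ∞ (fun p : ℝ × E ι => kos (fderiv ℝ (G p.1) p.2) v w)
      (Icc 0 T ×ˢ Om ι) := by
    unfold kos
    apply ContDiffOn.const_smul
    apply ContDiffOn.sub _ h3
    exact ((hD.clm_apply contDiffOn_const).clm_apply contDiffOn_const).add
      ((hD.clm_apply contDiffOn_const).clm_apply contDiffOn_const)
  exact hi.clm_apply hk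

theorem smooth_ginv (k l : ι) :
    ContDiffOn ℝ ∞ (fun p : ℝ × E ι => ginv (G p.1 p.2) k l) (Icc 0 T ×ˢ Om ι) := by
  have hi := smooth_inverse hT hG hinv
  have h1 : ContDiffOn ℝ ∞ (fun p : ℝ × E ι => (G p.1 p.2).inverse
      (EuclideanSpace.proj k : E ι →L[ℝ] ℝ)) (Icc 0 T ×ˢ Om ι) :=
    hi.clm_apply contDiffOn_const
  exact (EuclideanSpace.proj (𝕜 := ℝ) l : E ι →L[ℝ] ℝ).contDiff.comp_contDiffOn h1

theorem smooth_dtW :
    ContDiffOn ℝ ∞ (fun p : ℝ × E ι => dtW (G p.1) p.2) (Icc 0 T ×ˢ Om ι) := by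
  unfold dtW
  refine ContDiffOn.sum fun k _ => ContDiffOn.sum fun l _ => ?_
  refine (smooth_ginv hT hG hinv k l).smul ((smooth_chris hT hG hinv _ _).sub ?_)
  have hs : ContDiffOn ℝ ∞ (fun p : ℝ × E ι => p.2) (Icc 0 T ×ˢ Om ι) := contDiffOn_snd
  have hn : ContDiffOn ℝ ∞ (fun p : ℝ × E ι => (‖p.2‖ ^ 2)⁻¹) (Icc 0 T ×ˢ Om ι) := by
    refine ContDiffOn.inv (hs.norm_sq ℝ) ?_
    intro p hp
    exact pow_ne_zero 2 (norm_ne_zero_iff.2 hp.2)
  unfold bgchris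
  refine ContDiffOn.smul hn.neg ?_
  refine ContDiffOn.sub (ContDiffOn.add ?_ ?_) ?_
  · exact ContDiffOn.smul (hs.inner ℝ contDiffOn_const) contDiffOn_const
  · exact ContDiffOn.smul (hs.inner ℝ contDiffOn_const) contDiffOn_const
  · exact ContDiffOn.const_smul _ hs

end Smooth

theorem smooth_pull (hT : 0 < T) (hG : ContDiffOn ℝ ∞ (unc G) (Icc 0 T ×ˢ Om ι))
    (hφ : ContDiffOn ℝ ∞ (unc φ) (Icc 0 T ×ˢ Om ι))
    (hm : ∀ t ∈ Icc 0 T, ∀ x ∈ Om ι, φ t x ∈ Om ι) :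
    ContDiffOn ℝ ∞ (fun p : ℝ × E ι => pullb (G p.1) (φ p.1) p.2) (Icc 0 T ×ˢ Om ι) := by
  have h1 : ContDiffOn ℝ ∞ (fun p : ℝ × E ι => G p.1 (φ p.1 p.2)) (Icc 0 T ×ˢ Om ι) :=
    hG.comp (contDiffOn_fst.prodMk hφ) (fun p hp => ⟨hp.1, hm p.1 hp.1 p.2 hp.2⟩)
  have h2 : ContDiffOn ℝ ∞ (fun p : ℝ × E ι => fderiv ℝ (φ p.1) p.2) (Icc 0 T ×ˢ Om ι) :=
    contDiffOn_space hT isOpen_Om hφ
  have h4 : (fun p : ℝ × E ι => pullb (G p.1) (φ p.1) p.2) = fun p =>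
      ((ContinuousLinearMap.flip (((ContinuousLinearMap.flip ((G p.1 (φ p.1 p.2)).comp
        (fderiv ℝ (φ p.1) p.2))).comp (fderiv ℝ (φ p.1) p.2))))) := by
    funext p
    ext v w
    rfl
  rw [h4]
  have k1 := h1.clm_comp h2
  have k2 : ContDiffOn ℝ ∞ (fun p : ℝ × E ι => ContinuousLinearMap.flip
      ((G p.1 (φ p.1 p.2)).comp (fderiv ℝ (φ p.1) p.2))) (Icc 0 T ×ˢ Om ι) :=
    ((ContinuousLinearMap.flipₗᵢ ℝ (E ι) (E ι) ℝ).toContinuousLinearEquiv.contDiff).comp_contDiffOn k1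
  have k3 := k2.clm_comp h2
  exact ((ContinuousLinearMap.flipₗᵢ ℝ (E ι) (E ι) ℝ).toContinuousLinearEquiv.contDiff).comp_contDiffOn k3

/-- derivative of `s ↦ G s (φ s x)` -/
theorem hasDeriv_comp (hG : ContDiffOn ℝ ∞ (unc G) (Icc 0 T ×ˢ Om ι)) {t : ℝ}
    (ht : t ∈ Icc 0 T) {c : ℝ → E ι} {c' : E ι} (hc : HasDerivWithinAt c c' (Icc 0 T) t)
    (hm : ∀ s ∈ Icc 0 T, c s ∈ Om ι) :
    HasDerivWithinAt (fun s => G s (c s))
      (fderivWithin ℝ (unc G) (Icc 0 T ×ˢ Om ι) (t, c t) (1, 0) + fderiv ℝ (G t) (c t) c')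
      (Icc 0 T) t := by
  have h1 := hasFDerivWithinAt_unc hG (p := (t, c t)) ⟨ht, hm t ht⟩
  have h2 : HasDerivWithinAt (fun s : ℝ => (s, c s)) ((1 : ℝ), c') (Icc 0 T) t :=
    (hasDerivWithinAt_id t _).prodMk hc
  have h3 := h1.comp_hasDerivWithinAt t h2
    (show MapsTo (fun s : ℝ => (s, c s)) (Icc 0 T) (Icc 0 T ×ˢ Om ι) from
      fun s hs => ⟨hs, hm s hs⟩)
  refine h3.congr_deriv ?_
  rw [(hasFDerivAt_space isOpen_Om hG ht (hm t ht)).fderiv]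
  have e : ((1 : ℝ), c') = ((1 : ℝ), (0 : E ι)) + ((0 : ℝ), c') := by simp
  rw [e, map_add]
  simp

section Main

variable (hT : 0 < T) (hR : IsRDT T G)
  (hφ : ContDiffOn ℝ ∞ (unc φ) (Icc 0 T ×ˢ Om ι))
  (hW : ∀ t ∈ Icc 0 T, ∀ x ∈ Om ι,
        HasDerivWithinAt (fun s => φ s x) (- dtW (G t) (φ t x)) (Icc 0 T) t)
  (hn : ∀ t ∈ Icc 0 T, ∀ x ∈ Om ι, ‖φ t x‖ = ‖x‖)
  (hh : ∀ t ∈ Icc 0 T, ∀ c : ℝ, 0 < c → ∀ x ∈ Om ι, φ t (c • x) = c • φ t x)
  (hi : ∀ t ∈ Icc 0 T, ∀ x ∈ Om ι, (fderiv ℝ (φ t) x).IsInvertible)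
include hT hR hφ hn

omit hT hR hφ in
theorem mapsTo_phi : ∀ t ∈ Icc 0 T, ∀ x ∈ Om ι, φ t x ∈ Om ι := by
  intro t ht x hx h0
  have := hn t ht x hx
  rw [h0, norm_zero] at this
  exact hx (norm_eq_zero.1 this.symm)

omit hT hR in
theorem diff_phi {t : ℝ} (ht : t ∈ Icc 0 T) {x : E ι} (hx : x ∈ Om ι) :
    DifferentiableAt ℝ (φ t) x := (hasFDerivAt_space isOpen_Om hφ ht hx).differentiableAt

omit hT hR in
theorem contDiff_phi {t : ℝ} (ht : t ∈ Icc 0 T) : ContDiffOn ℝ ∞ (φ t) (Om ι) := by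
  have : ContDiffOn ℝ ∞ (fun x => unc φ (t, x)) (Om ι) :=
    hφ.comp (contDiffOn_const.prodMk contDiffOn_id) (fun x hx => ⟨ht, hx⟩)
  exact this

omit hT hR in
theorem inner_phi {t : ℝ} (ht : t ∈ Icc 0 T) {x : E ι} (hx : x ∈ Om ι) (w : E ι) :
    ⟪φ t x, fderiv ℝ (φ t) x w⟫ = ⟪x, w⟫ := by
  have hd := (diff_phi hφ hn ht hx).hasFDerivAt
  have h1 := hd.inner ℝ hd
  have h2 := (hasFDerivAt_id (𝕜 := ℝ) x).inner ℝ (hasFDerivAt_id (𝕜 := ℝ) x)
  have h3 : (fun y => (⟪φ t y, φ t y⟫ : ℝ)) =ᶠ[𝓝 x] (fun y => ⟪id y, id y⟫) := by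
    filter_upwards [isOpen_Om.mem_nhds hx] with y hy
    rw [real_inner_self_eq_norm_sq, hn t ht y hy, id, real_inner_self_eq_norm_sq]
  have h4 := congrArg (fun L : E ι →L[ℝ] ℝ => L w)
    ((h1.congr_of_eventuallyEq h3.symm).unique h2)
  simp at h4
  rw [real_inner_comm (φ t x), real_inner_comm x w] at h4
  linarith

omit hT hR hn in
theorem euler_phi (hn : ∀ t ∈ Icc 0 T, ∀ x ∈ Om ι, ‖φ t x‖ = ‖x‖)
    (hh : ∀ t ∈ Icc 0 T, ∀ c : ℝ, 0 < c → ∀ x ∈ Om ι, φ t (c • x) = c • φ t x)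
    {t : ℝ} (ht : t ∈ Icc 0 T) {x : E ι} (hx : x ∈ Om ι) :
    fderiv ℝ (φ t) x x = φ t x := by
  have hd := (diff_phi hφ hn ht hx).hasFDerivAt
  have h1 : HasDerivAt (fun c : ℝ => φ t (c • x)) (fderiv ℝ (φ t) x x) 1 := by
    have hs : HasDerivAt (fun c : ℝ => c • x) ((1 : ℝ) • x) 1 := (hasDerivAt_id 1).smul_const x
    have hf' : HasFDerivAt (φ t) (fderiv ℝ (φ t) x) ((1 : ℝ) • x) := by
      rw [one_smul]
      exact hd
    have := hf'.comp_hasDerivAt (1 : ℝ) hs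
    rw [one_smul] at this
    exact this
  have h2 : HasDerivAt (fun c : ℝ => φ t (c • x)) ((1 : ℝ) • φ t x) 1 := by
    refine ((hasDerivAt_id (1 : ℝ)).smul_const (φ t x)).congr_of_eventuallyEq ?_
    filter_upwards [lt_mem_nhds (show (0 : ℝ) < 1 by norm_num)] with c hc
    exact hh t ht c hc x hx
  rw [h1.unique h2, one_smul]

omit hT hR hn in
theorem homog_dphi (hn : ∀ t ∈ Icc 0 T, ∀ x ∈ Om ι, ‖φ t x‖ = ‖x‖)
    (hh : ∀ t ∈ Icc 0 T, ∀ c : ℝ, 0 < c → ∀ x ∈ Om ι, φ t (c • x) = c • φ t x)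
    {t : ℝ} (ht : t ∈ Icc 0 T) {x : E ι} (hx : x ∈ Om ι) {c : ℝ} (hc : 0 < c) :
    fderiv ℝ (φ t) (c • x) = fderiv ℝ (φ t) x := by
  have hcx : c • x ∈ Om ι := fun h => hx ((smul_eq_zero.1 h).resolve_left hc.ne')
  have hd := (diff_phi hφ hn ht hx).hasFDerivAt
  have hd' := (diff_phi hφ hn ht hcx).hasFDerivAt
  have h1 : HasFDerivAt (fun y => φ t (c • y))
      ((fderiv ℝ (φ t) (c • x)).comp (c • ContinuousLinearMap.id ℝ (E ι))) x :=
    HasFDerivAt.comp (g := φ t) x hd' ((hasFDerivAt_id x).const_smul c)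
  have h2 : HasFDerivAt (fun y => φ t (c • y)) (c • fderiv ℝ (φ t) x) x := by
    refine (hd.const_smul c).congr_of_eventuallyEq ?_
    filter_upwards [isOpen_Om.mem_nhds hx] with y hy
    exact hh t ht c hc y hy
  ext1 v
  have h3 := congrArg (fun L : E ι →L[ℝ] E ι => L v) (h1.unique h2)
  simp only [ContinuousLinearMap.comp_apply, smul_apply, ContinuousLinearMap.id_apply,
    map_smul] at h3
  exact smul_right_injective _ hc.ne' h3

omit hn in
theorem isCyl_pull (hDf : DiffeoStatement) (hn : ∀ t ∈ Icc 0 T, ∀ x ∈ Om ι, ‖φ t x‖ = ‖x‖)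
    (hh : ∀ t ∈ Icc 0 T, ∀ c : ℝ, 0 < c → ∀ x ∈ Om ι, φ t (c • x) = c • φ t x)
    (hi : ∀ t ∈ Icc 0 T, ∀ x ∈ Om ι, (fderiv ℝ (φ t) x).IsInvertible)
    {t : ℝ} (ht : t ∈ Icc 0 T) : IsCyl (pullb (G t) (φ t)) := by
  have hm := mapsTo_phi hn
  have hC := hR.cyl t ht
  refine ⟨(hDf ι ι (G t) (φ t) (Om ι) (Om ι) hC.metric isOpen_Om (contDiff_phi hφ hn ht)
    (fun x hx => hm t ht x hx) (fun x hx => hi t ht x hx)).1, ?_, ?_⟩
  · intro c hc x hx
    ext v w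
    rw [pullb_apply, homog_dphi hφ hn hh ht hx hc, hh t ht c hc x hx,
      hC.homog c hc _ (hm t ht x hx)]
    rfl
  · intro x hx w
    rw [pullb_apply, euler_phi hφ hn hh ht hx, hC.radial _ (hm t ht x hx), inner_phi hφ hn ht hx,
      hn t ht x hx]

include hW hi in
theorem flow_pull (hDf : DiffeoStatement) (hRC : RdtCylStatement) :
    ∀ t ∈ Icc 0 T, ∀ x ∈ Om ι, ∀ v w,
    HasDerivWithinAt (fun s => pullb (G s) (φ s) x v w) (-2 * ric (pullb (G t) (φ t)) x v w)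
      (Icc 0 T) t := by
  intro t ht x hx v w
  have hm := mapsTo_phi hn
  have hG : ContDiffOn ℝ ∞ (unc G) (Icc 0 T ×ˢ Om ι) := hR.smooth
  have hC := hR.cyl t ht
  have hA := hasDeriv_comp hG ht (hW t ht x hx) (fun s hs => hm s hs x hx)
  have hB := mix hT isOpen_Om hφ (Ft := fun t x => - dtW (G t) (φ t x)) hW ht hx
  have hWd : DifferentiableAt ℝ (dtW (G t)) (φ t x) :=
    (((hRC ι (G t) hC).1).contDiffAt (isOpen_Om.mem_nhds (hm t ht x hx))).differentiableAt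
      (by simp)
  have hBd : fderiv ℝ (fun x => - dtW (G t) (φ t x)) x =
      -((fderiv ℝ (dtW (G t)) (φ t x)).comp (fderiv ℝ (φ t) x)) := by
    have := (hWd.hasFDerivAt.comp x (diff_phi hφ hn ht hx).hasFDerivAt).neg
    exact this.fderiv
  rw [hBd] at hB
  have hBv : ∀ u, HasDerivWithinAt (fun s => fderiv ℝ (φ s) x u)
      (-(fderiv ℝ (dtW (G t)) (φ t x) (fderiv ℝ (φ t) x u))) (Icc 0 T) t := by
    intro u
    have := hB.clm_apply (hasDerivWithinAt_const t (Icc 0 T) u)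
    simpa using this
  have hF := (hA.clm_apply (hBv v)).clm_apply (hBv w)
  have hgt : ∀ a b, fderivWithin ℝ (unc G) (Icc 0 T ×ˢ Om ι) (t, φ t x) (1, 0) a b =
      rdt (G t) (φ t x) a b := by
    intro a b
    have h1 := hasDerivWithinAt_time hG ht (hm t ht x hx)
    have h2 := (h1.clm_apply (hasDerivWithinAt_const t (Icc 0 T) a)).clm_apply
      (hasDerivWithinAt_const t (Icc 0 T) b)
    have h3 := hR.flow t ht (φ t x) (hm t ht x hx) a b
    have h4 := (uniqueDiffOn_Icc hT t ht).eq_deriv _ h2 h3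
    simpa using h4
  have hric := (hDf ι ι (G t) (φ t) (Om ι) (Om ι) hC.metric isOpen_Om (contDiff_phi hφ hn ht)
    (fun x hx => hm t ht x hx) (fun x hx => hi t ht x hx)).2.2 x hx v w
  rw [hric]
  refine hF.congr_deriv ?_
  simp only [_root_.add_apply, map_neg, _root_.neg_apply, hgt, rdt]
  ring

end Main

theorem det (hFl : FlowStatement) (hCh : ChrStatement) (hNat : NatStatement)
    (hDf : DiffeoStatement) (hRC : RdtCylStatement) : DeTurckStatement := by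
  intro ι κ _ _ _ _ T G hcard hT hR
  have hG : ContDiffOn ℝ ∞ (unc G) (Icc 0 T ×ˢ Om ι) := hR.smooth
  have hinv : ∀ t ∈ Icc 0 T, ∀ x ∈ Om ι, (G t x).IsInvertible := fun t ht x hx =>
    (hCh ι (G t) (Om ι) (hR.cyl t ht).metric x hx).1
  obtain ⟨φ, hφ, h0, hW, hn, hh, hi, hs⟩ := hFl ι T (fun t => dtW (G t)) hT
    (smooth_dtW hT hG hinv) (fun t ht x hx => ((hRC ι (G t) (hR.cyl t ht)).2 x hx).1)
    (fun t ht c hc x hx => ((hRC ι (G t) (hR.cyl t ht)).2 x hx).2.1 c hc)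
  have hm := mapsTo_phi hn
  refine ⟨fun t => pullb (G t) (φ t), φ, ⟨?_, ?_, ?_⟩, ?_, ?_, ?_⟩
  · intro t ht
    exact isCyl_pull hT hR hφ hDf hn hh hi ht
  · exact smooth_pull hT hG hφ hm
  · exact flow_pull hT hR hφ hW hn hi hDf hRC
  · intro x hx
    have e : φ 0 =ᶠ[𝓝 x] id := by
      filter_upwards [isOpen_Om.mem_nhds hx] with y hy
      exact h0 y hy
    have e2 : fderiv ℝ (φ 0) x = ContinuousLinearMap.id ℝ (E ι) := by
      rw [e.fderiv_eq, fderiv_id]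
    ext v w
    rw [pullb_apply, e2, h0 x hx]
    rfl
  · intro t ht y hy hy1
    obtain ⟨x, hx, hxy⟩ := hs t ht y hy
    refine ⟨x, hx, ?_, hxy⟩
    rw [← hn t ht x hx, hxy, hy1]
  · intro t ht x hx hx1
    have hC := hR.cyl t ht
    obtain ⟨hM, hS, -⟩ := hDf ι ι (G t) (φ t) (Om ι) (Om ι) hC.metric isOpen_Om
      (contDiff_phi hφ hn ht) (fun x hx => hm t ht x hx) (fun x hx => hi t ht x hx)
    obtain ⟨D, hD⟩ := hi t ht x hx
    have hDa : ∀ v, fderiv ℝ (φ t) x v = D v := fun v => by rw [← hD]; rfl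
    have hsk : ∀ (e : κ → E ι) (M : Matrix κ κ ℝ), skf (pullb (G t) (φ t)) x e M =
        skf (G t) (φ t x) (fun i => D (e i)) M := by
      intro e M
      unfold skf
      refine Finset.sum_congr rfl fun i _ => Finset.sum_congr rfl fun j _ =>
        Finset.sum_congr rfl fun k _ => Finset.sum_congr rfl fun l _ => ?_
      rw [pullb_apply, hNat ι ι (pullb (G t) (φ t)) (G t) (φ t) (Om ι) (Om ι) hM hC.metric
        (contDiff_phi hφ hn ht) (fun x hx => hm t ht x hx) hS x hx]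
      simp only [hDa]
    have hor : ∀ e : κ → E ι, IsOrtho (pullb (G t) (φ t) x) e ↔
        IsOrtho (G t (φ t x)) (fun i => D (e i)) := by
      intro e
      unfold IsOrtho
      simp only [pullb_apply, hDa]
    have hin : ∀ w, ⟪φ t x, D w⟫ = ⟪x, w⟫ := by
      intro w
      rw [← hDa]
      exact inner_phi hφ hn ht hx w
    constructor
    · constructor
      · intro h e he1 he2 M hM1 hM2
        have := h (fun i => D.symm (e i)) (fun i => by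
          rw [← hin, D.apply_symm_apply]
          exact he1 i) ((hor _).2 (by simpa using he2)) M hM1 hM2
        rw [hsk] at this
        simpa using this
      · intro h e he1 he2 M hM1 hM2
        rw [hsk]
        exact h _ (fun i => by rw [hin]; exact he1 i) ((hor e).1 he2) M hM1 hM2
    · constructor
      · intro h e he1 he2 M hM1 hM2 hM3
        have := h (fun i => D.symm (e i)) (fun i => by
          rw [← hin, D.apply_symm_apply]
          exact he1 i) ((hor _).2 (by simpa using he2)) M hM1 hM2 hM3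
        rw [hsk] at this
        simpa using this
      · intro h e he1 he2 M hM1 hM2 hM3
        rw [hsk]
        exact h _ (fun i => by rw [hin]; exact he1 i) ((hor e).1 he2) M hM1 hM2 hM3

end Pool.Agent.RF.H58
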