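import Pool.Agent.Helper36_RF.Ex

/-!
# Second derivatives at the origin of the doubly warped forms (helper58)
-/

noncomputable section

open scoped ContDiff Topology RealInnerProductSpace
set_option maxSynthPendingDepth 3
set_option linter.unusedSectionVars false
open Set

namespace Pool.Agent.RF.H58

open Pool.Agent.RF

section line

variable {V W : Type*} [NormedAddCommGroup V] [NormedSpace ℝ V] [NormedAddCommGroup W]
  [NormedSpace ℝ W]

theorem line2 {Ψ : V → W} (hΨ : ContDiffAt ℝ ∞ Ψ 0) {g : ℝ → W} (hg : ContDiffAt ℝ ∞ g 0) {h : V}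
    (he : ∀ᶠ s in 𝓝 (0 : ℝ), Ψ (s • h) = g (s ^ 2)) :
    fderiv ℝ Ψ 0 h = 0 ∧ fderiv ℝ (fderiv ℝ Ψ) 0 h h = (2 : ℝ) • deriv g 0 := by
  have hΨd : ∀ᶠ y in 𝓝 (0 : V), DifferentiableAt ℝ Ψ y := by
    filter_upwards [(hΨ.of_le (m := 1) (by simp)).eventually (by simp)] with y hy
    exact hy.differentiableAt (by simp)
  have hgd : ∀ᶠ y in 𝓝 (0 : ℝ), DifferentiableAt ℝ g y := by
    filter_upwards [(hg.of_le (m := 1) (by simp)).eventually (by simp)] with y hy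
    exact hy.differentiableAt (by simp)
  have hc1 : Filter.Tendsto (fun s : ℝ => s • h) (𝓝 0) (𝓝 (0 : V)) := by
    have : Continuous (fun s : ℝ => s • h) := by fun_prop
    simpa using this.tendsto 0
  have hc2 : Filter.Tendsto (fun s : ℝ => s ^ 2) (𝓝 0) (𝓝 (0 : ℝ)) := by
    have : Continuous (fun s : ℝ => s ^ 2) := by fun_prop
    simpa using this.tendsto 0
  have h1 : ∀ᶠ s in 𝓝 (0 : ℝ), fderiv ℝ Ψ (s • h) h = (2 * s) • deriv g (s ^ 2) := by
    filter_upwards [he.eventually_nhds, hc1.eventually hΨd, hc2.eventually hgd] with s h1 h2 h3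
    have e1 : HasDerivAt (fun s : ℝ => Ψ (s • h)) (fderiv ℝ Ψ (s • h) h) s := by
      have hs : HasDerivAt (fun c : ℝ => c • h) ((1 : ℝ) • h) s := (hasDerivAt_id s).smul_const h
      have := h2.hasFDerivAt.comp_hasDerivAt s hs
      exact this.congr_deriv (by simp)
    have e2 : HasDerivAt (fun s : ℝ => g (s ^ 2)) ((2 * s) • deriv g (s ^ 2)) s := by
      have hs : HasDerivAt (fun c : ℝ => c ^ 2) (2 * s) s := by
        simpa using hasDerivAt_pow 2 s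
      exact HasDerivAt.scomp (g₁ := g) (h := fun c : ℝ => c ^ 2) s h3.hasDerivAt hs
    exact e1.unique (e2.congr_of_eventuallyEq h1)
  refine ⟨by simpa using h1.self_of_nhds, ?_⟩
  have hΨ2 : DifferentiableAt ℝ (fderiv ℝ Ψ) 0 := by
    have : ContDiffAt ℝ 1 (fderiv ℝ Ψ) 0 := hΨ.fderiv_right (by exact WithTop.coe_le_coe.2 le_top)
    exact this.differentiableAt (by simp)
  have hg2 : DifferentiableAt ℝ (deriv g) 0 := by
    have : ContDiffAt ℝ 1 (fderiv ℝ g) 0 := hg.fderiv_right (by exact WithTop.coe_le_coe.2 le_top)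
    have h2 : DifferentiableAt ℝ (fderiv ℝ g) 0 := this.differentiableAt (by simp)
    have h3 : deriv g = fun x => fderiv ℝ g x 1 := by
      funext x
      rfl
    rw [h3]
    exact h2.clm_apply (differentiableAt_const _)
  have e3 : HasDerivAt (fun s : ℝ => fderiv ℝ Ψ (s • h) h) (fderiv ℝ (fderiv ℝ Ψ) 0 h h) 0 := by
    have hs : HasDerivAt (fun c : ℝ => c • h) ((1 : ℝ) • h) 0 := (hasDerivAt_id 0).smul_const h
    have h0 : HasFDerivAt (fderiv ℝ Ψ) (fderiv ℝ (fderiv ℝ Ψ) 0) ((0 : ℝ) • h) := by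
      rw [zero_smul]
      exact hΨ2.hasFDerivAt
    have h4 := h0.comp_hasDerivAt (0 : ℝ) hs
    have h5 := h4.clm_apply (hasDerivAt_const (0 : ℝ) h)
    simpa using h5
  have e4 : HasDerivAt (fun s : ℝ => (2 * s) • deriv g (s ^ 2)) ((2 : ℝ) • deriv g 0) 0 := by
    have hs : HasDerivAt (fun c : ℝ => c ^ 2) (0 : ℝ) 0 := by
      simpa using hasDerivAt_pow 2 (0 : ℝ)
    have h0 : HasDerivAt (deriv g) (deriv (deriv g) 0) ((0 : ℝ) ^ 2) := by
      rw [zero_pow two_ne_zero]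
      exact hg2.hasDerivAt
    have h4 := HasDerivAt.scomp (g₁ := deriv g) (h := fun c : ℝ => c ^ 2) (0 : ℝ) h0 hs
    have h6 : HasDerivAt (fun s : ℝ => 2 * s) 2 0 := by
      simpa using (hasDerivAt_id (0 : ℝ)).const_mul 2
    have h5 := h6.smul h4
    refine h5.congr_deriv ?_
    simp
  exact (e3.congr_of_eventuallyEq (Filter.EventuallyEq.symm h1)).unique e4

end line

section jet

variable {α β : Type} [Fintype α] [DecidableEq α] [Fintype β] [DecidableEq β]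

/-- the family of forms -/
def Phi (P R S : ℝ → ℝ) (y : E (α ⊕ β)) : Bil (E (α ⊕ β)) :=
  P (‖prr y‖ ^ 2) • inR + R (‖prr y‖ ^ 2) • rk (coR y) + S (‖prr y‖ ^ 2) • hrd y

theorem gloc_eq (η A : ℝ → ℝ) (y : E (α ⊕ β)) : gloc η A y = Phi (fun _ => 1) η A y := by
  unfold gloc Phi g1 g3
  rw [one_smul]

/-- its value on a line -/
def lineg (P R S : ℝ → ℝ) (h : E (α ⊕ β)) (τ : ℝ) : Bil (E (α ⊕ β)) :=
  P (τ * ‖prr h‖ ^ 2) • inR + (R (τ * ‖prr h‖ ^ 2) * τ) • rk (coR h)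
    + S (τ * ‖prr h‖ ^ 2) • (inL + ((1 - τ * ‖prl h‖ ^ 2)⁻¹ * τ) • rk (coL h))

theorem coR_smul (s : ℝ) (h : E (α ⊕ β)) : coR (s • h) = s • coR h := by
  ext v
  simp [real_inner_smul_left]

theorem coL_smul (s : ℝ) (h : E (α ⊕ β)) : coL (s • h) = s • coL h := by
  ext v
  simp [real_inner_smul_left]

theorem rk_smul {V : Type*} [NormedAddCommGroup V] [NormedSpace ℝ V] (s : ℝ) (f : V →L[ℝ] ℝ) :
    rk (s • f) = s ^ 2 • rk f := by
  ext v w
  simp [rk_apply]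
  ring

theorem Phi_line (P R S : ℝ → ℝ) (h : E (α ⊕ β)) (s : ℝ) :
    Phi P R S (s • h) = lineg P R S h (s ^ 2) := by
  unfold Phi lineg hrd
  rw [coR_smul, coL_smul, rk_smul, rk_smul, map_smul, map_smul, norm_smul, norm_smul, mul_pow,
    mul_pow, Real.norm_eq_abs, sq_abs, smul_smul, smul_smul]

variable {P R S : ℝ → ℝ} (hP : ContDiffAt ℝ ∞ P 0) (hR : ContDiffAt ℝ ∞ R 0)
  (hS : ContDiffAt ℝ ∞ S 0)
include hP hR hS

theorem lineg_smooth (h : E (α ⊕ β)) : ContDiffAt ℝ ∞ (lineg P R S h) 0 := by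
  have h1 : ∀ {f : ℝ → ℝ}, ContDiffAt ℝ ∞ f 0 →
      ContDiffAt ℝ ∞ (fun τ : ℝ => f (τ * ‖prr h‖ ^ 2)) 0 := by
    intro f hf
    have h2 : ContDiffAt ℝ ∞ (fun τ : ℝ => τ * ‖(prr h : E β)‖ ^ 2) 0 := by fun_prop
    have hf' : ContDiffAt ℝ ∞ f ((fun τ : ℝ => τ * ‖(prr h : E β)‖ ^ 2) 0) := by simpa using hf
    exact ContDiffAt.comp (0 : ℝ) hf' h2
  have h3 : ContDiffAt ℝ ∞ (fun τ : ℝ => (1 - τ * ‖(prl h : E α)‖ ^ 2)⁻¹) 0 := by
    apply ContDiffAt.inv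
    · fun_prop
    · simp
  unfold lineg
  refine (((h1 hP).smul contDiffAt_const).add (((h1 hR).mul contDiffAt_id).smul
    contDiffAt_const)).add ((h1 hS).smul (contDiffAt_const.add ((h3.mul contDiffAt_id).smul
    contDiffAt_const)))

theorem lineg_deriv (h : E (α ⊕ β)) : deriv (lineg P R S h) 0 =
    (deriv P 0 * ‖prr h‖ ^ 2) • inR + R 0 • rk (coR h) + (deriv S 0 * ‖prr h‖ ^ 2) • inL
      + S 0 • rk (coL h) := by
  have h1 : ∀ {f : ℝ → ℝ}, ContDiffAt ℝ ∞ f 0 →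
      HasDerivAt (fun τ : ℝ => f (τ * ‖prr h‖ ^ 2)) (deriv f 0 * ‖prr h‖ ^ 2) 0 := by
    intro f hf
    have hd : HasDerivAt f (deriv f 0) ((0 : ℝ) * ‖(prr h : E β)‖ ^ 2) := by
      rw [zero_mul]
      exact (hf.differentiableAt (by simp)).hasDerivAt
    have hm : HasDerivAt (fun τ : ℝ => τ * ‖(prr h : E β)‖ ^ 2) (‖(prr h : E β)‖ ^ 2) 0 := by
      simpa using (hasDerivAt_id (0 : ℝ)).mul_const (‖(prr h : E β)‖ ^ 2)
    exact hd.comp (0 : ℝ) hm
  have h3 : HasDerivAt (fun τ : ℝ => (1 - τ * ‖(prl h : E α)‖ ^ 2)⁻¹ * τ) 1 0 := by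
    have hm : HasDerivAt (fun τ : ℝ => 1 - τ * ‖(prl h : E α)‖ ^ 2) (-‖(prl h : E α)‖ ^ 2) 0 := by
      simpa using ((hasDerivAt_id (0 : ℝ)).mul_const (‖(prl h : E α)‖ ^ 2)).const_sub 1
    have hi := (hm.inv (by simp)).mul (hasDerivAt_id (0 : ℝ))
    refine hi.congr_deriv ?_
    simp
  have hPd := (h1 hP).smul_const (inR : Bil (E (α ⊕ β)))
  have hRd := (((h1 hR).mul (hasDerivAt_id (0 : ℝ))).smul_const (rk (coR h)))
  have hSd := (h1 hS).smul ((hasDerivAt_const (0 : ℝ) (inL : Bil (E (α ⊕ β)))).add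
    (h3.smul_const (rk (coL h))))
  have h4 := ((hPd.add hRd).add hSd).deriv
  have h5 : deriv (lineg P R S h) 0 = _ := h4
  rw [h5]
  simp
  abel

variable {Φ : E (α ⊕ β) → Bil (E (α ⊕ β))} (hΦ : ContDiffAt ℝ ∞ Φ 0)
  (he : Φ =ᶠ[𝓝 0] Phi P R S)
include hΦ he

theorem jet_line (h : E (α ⊕ β)) : fderiv ℝ Φ 0 h = 0 ∧ fderiv ℝ (fderiv ℝ Φ) 0 h h =
    (2 : ℝ) • ((deriv P 0 * ‖prr h‖ ^ 2) • inR + R 0 • rk (coR h)
      + (deriv S 0 * ‖prr h‖ ^ 2) • inL + S 0 • rk (coL h)) := by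
  have hc1 : Filter.Tendsto (fun s : ℝ => s • h) (𝓝 0) (𝓝 (0 : E (α ⊕ β))) := by
    have : Continuous (fun s : ℝ => s • h) := by fun_prop
    simpa using this.tendsto 0
  have h1 := line2 hΦ (lineg_smooth hP hR hS h) (h := h) (by
    filter_upwards [hc1.eventually he] with s hs
    rw [hs, Phi_line])
  rw [lineg_deriv hP hR hS h] at h1
  exact h1

theorem jet0 : Φ 0 = P 0 • inR + S 0 • inL := by
  rw [he.eq_of_nhds]
  have h1 := Phi_line P R S (0 : E (α ⊕ β)) 0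
  rw [smul_zero] at h1
  rw [h1]
  unfold lineg
  simp

theorem jet1 : fderiv ℝ Φ 0 = 0 := by
  ext1 h
  exact (jet_line hP hR hS hΦ he h).1

theorem jet2 (h k v z : E (α ⊕ β)) : fderiv ℝ (fderiv ℝ Φ) 0 h k v z =
    2 * deriv P 0 * ⟪(prr h : E β), prr k⟫ * ⟪(prr v : E β), prr z⟫
      + R 0 * (⟪(prr h : E β), prr v⟫ * ⟪(prr k : E β), prr z⟫
        + ⟪(prr k : E β), prr v⟫ * ⟪(prr h : E β), prr z⟫)
      + 2 * deriv S 0 * ⟪(prr h : E β), prr k⟫ * ⟪(prl v : E α), prl z⟫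
      + S 0 * (⟪(prl h : E α), prl v⟫ * ⟪(prl k : E α), prl z⟫
        + ⟪(prl k : E α), prl v⟫ * ⟪(prl h : E α), prl z⟫) := by
  have hsym : ∀ a b : E (α ⊕ β), fderiv ℝ (fderiv ℝ Φ) 0 a b = fderiv ℝ (fderiv ℝ Φ) 0 b a := by
    have := hΦ.isSymmSndFDerivAt (by
      simp only [minSmoothness_of_isRCLikeNormedField]
      exact WithTop.coe_le_coe.2 le_top)
    intro a b
    exact this a b
  have hl := fun a => (jet_line hP hR hS hΦ he a).2
  have e1 := hl (h + k)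
  rw [map_add, map_add, _root_.add_apply, _root_.add_apply, hsym k h, hl h, hl k] at e1
  have e2 := congrArg (fun L : Bil (E (α ⊕ β)) => L v z) e1
  simp only [_root_.add_apply, _root_.smul_apply, smul_eq_mul, inR_apply, inL_apply, rk_apply,
    coR_apply, coL_apply, map_add, inner_add_left, ← real_inner_self_eq_norm_sq,
    inner_add_right] at e2
  rw [real_inner_comm (prr h) (prr k)] at e2
  linarith

end jet

end Pool.Agent.RF.H58
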