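import Pool.Agent.Helper58_RF.Jet
import Pool.Agent.Helper36_RF.Chr

/-!
# The critical profile (helper58)
-/

noncomputable section

open scoped ContDiff Topology RealInnerProductSpace
set_option maxSynthPendingDepth 3
set_option linter.unusedSectionVars false
open Set

namespace Pool.Agent.RF.H58

open Pool.Agent.RF

/-- profile functions -/
def eta (K : ℝ) (τ : ℝ) : ℝ := K / (1 - K * τ)
def Apr (A0 m0 ν : ℝ) (τ : ℝ) : ℝ := A0 - m0 * τ + ν * τ ^ 2 / 2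

def lamp (K A0 m0 ν τ : ℝ) : ℝ := (-m0 + ν * τ) * K / (Apr A0 m0 ν τ * (1 - K * τ))
  - 2 * ν / Apr A0 m0 ν τ + (-m0 + ν * τ) ^ 2 / Apr A0 m0 ν τ ^ 2
def Mpr (K A0 m0 ν τ : ℝ) : ℝ := (m0 - ν * τ) * (1 - K * τ) / Apr A0 m0 ν τ
def Npr (K A0 m0 ν τ : ℝ) : ℝ :=
  (1 - τ * (1 - K * τ) * (-m0 + ν * τ) ^ 2 / Apr A0 m0 ν τ) / Apr A0 m0 ν τ

/-- Ricci coefficients -/
def Pr (p Q K A0 m0 ν τ : ℝ) : ℝ := (Q - 1) * K + p * Mpr K A0 m0 ν τ
def Rr (p Q K A0 m0 ν τ : ℝ) : ℝ := Pr p Q K A0 m0 ν τ * eta K τ + p * lamp K A0 m0 ν τ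
def Sr (p Q K A0 m0 ν τ : ℝ) : ℝ := (Q * Mpr K A0 m0 ν τ + τ * (1 - K * τ) * lamp K A0 m0 ν τ
  + (p - 1) * Npr K A0 m0 ν τ) * Apr A0 m0 ν τ

section
variable {K A0 m0 ν ρ : ℝ} (hK : 0 < K)

theorem deriv_Apr (τ : ℝ) : deriv (Apr A0 m0 ν) τ = -m0 + ν * τ := by
  have : HasDerivAt (Apr A0 m0 ν) (-m0 + ν * τ) τ := by
    have h1 := (((hasDerivAt_id τ).const_mul m0).const_sub A0).add
      ((((hasDerivAt_id τ).pow 2).const_mul ν).div_const 2)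
    refine h1.congr_deriv ?_
    simp
    ring
  exact this.deriv

theorem deriv2_Apr (τ : ℝ) : deriv (deriv (Apr A0 m0 ν)) τ = ν := by
  have h : deriv (Apr A0 m0 ν) = fun τ => -m0 + ν * τ := funext deriv_Apr
  rw [h]
  have h1 := ((hasDerivAt_id τ).const_mul ν).const_add (-m0)
  have h2 : HasDerivAt (fun τ => -m0 + ν * τ) ν τ := by simpa using h1
  exact h2.deriv

theorem deriv_eta {τ : ℝ} (h : 0 < 1 - K * τ) : deriv (eta K) τ = K ^ 2 / (1 - K * τ) ^ 2 := by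
  have h1 : HasDerivAt (fun τ => 1 - K * τ) (-K) τ := by
    simpa using ((hasDerivAt_id τ).const_mul K).const_sub 1
  have h2 := (hasDerivAt_const τ K).div h1 h.ne'
  have h3 : HasDerivAt (eta K) (K ^ 2 / (1 - K * τ) ^ 2) τ := by
    refine h2.congr_deriv ?_
    ring
  exact h3.deriv

theorem one_add_eta {τ : ℝ} (h : 0 < 1 - K * τ) : 1 + eta K τ * τ = (1 - K * τ)⁻¹ := by
  unfold eta
  field_simp
  ring

theorem fP_eta {τ : ℝ} (h : 0 < 1 - K * τ) : fP (eta K) τ = 1 - K * τ := by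
  unfold fP
  rw [one_add_eta h, inv_inv]

theorem fK1_eta {τ : ℝ} (h : 0 < 1 - K * τ) : fK1 (eta K) τ = K := by
  unfold fK1
  rw [fP_eta h]
  unfold eta
  field_simp

theorem fkap_eta {τ : ℝ} (h : 0 < 1 - K * τ) : fkap (eta K) τ = 0 := by
  unfold fkap
  rw [deriv_eta h]
  unfold eta
  rw [div_pow, sub_self, mul_zero]

theorem fK0_eta {τ : ℝ} (h : 0 < 1 - K * τ) : fK0 (eta K) τ = K := by
  unfold fK0
  rw [fP_eta h, deriv_eta h]
  unfold eta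
  field_simp
  ring

theorem fM_eq {τ : ℝ} (h : 0 < 1 - K * τ) : fM (eta K) (Apr A0 m0 ν) τ = Mpr K A0 m0 ν τ := by
  unfold fM Mpr
  rw [fP_eta h, deriv_Apr]
  ring

theorem fN_eq {τ : ℝ} (h : 0 < 1 - K * τ) : fN (eta K) (Apr A0 m0 ν) τ = Npr K A0 m0 ν τ := by
  unfold fN Npr
  rw [fP_eta h, deriv_Apr]

theorem flam_eq {τ : ℝ} (h : 0 < 1 - K * τ) :
    flam (eta K) (Apr A0 m0 ν) τ = lamp K A0 m0 ν τ := by
  unfold flam lamp
  rw [fP_eta h, deriv_Apr, deriv2_Apr, fK0_eta h]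

end

section
variable {K A0 m0 ν : ℝ} (hK : 0 < K) (hA : 0 < A0)
include hK hA

theorem exists_rho : ∃ ρ > 0, Prof (eta K) (Apr A0 m0 ν) ρ ∧ ∀ τ < ρ, 0 < 1 - K * τ := by
  have hc : ContinuousAt (Apr A0 m0 ν) 0 := by
    unfold Apr
    fun_prop
  have h0 : 0 < Apr A0 m0 ν 0 := by
    unfold Apr
    simpa using hA
  obtain ⟨r, hr, hr'⟩ := Metric.eventually_nhds_iff.1 (hc.eventually (lt_mem_nhds h0))
  have hm : 0 < min r K⁻¹ := lt_min hr (inv_pos.2 hK)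
  have hk : ∀ τ < min r K⁻¹, 0 < 1 - K * τ := by
    intro τ hτ
    have h1 : τ < K⁻¹ := lt_of_lt_of_le hτ (min_le_right _ _)
    have h2 : K * τ < K * K⁻¹ := mul_lt_mul_of_pos_left h1 hK
    rw [mul_inv_cancel₀ hK.ne'] at h2
    linarith
  refine ⟨min r K⁻¹, hm, ⟨hm, ?_, ?_, ?_, ?_⟩, hk⟩
  · intro τ hτ
    apply ContDiffAt.contDiffWithinAt
    unfold eta
    refine ContDiffAt.div contDiffAt_const (by fun_prop) (hk τ hτ).ne'
  · unfold Apr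
    fun_prop
  · intro τ hτ
    rw [one_add_eta (hk τ hτ.2)]
    exact inv_pos.2 (hk τ hτ.2)
  · intro τ hτ
    apply hr'
    rw [Real.dist_eq, sub_zero, abs_of_nonneg hτ.1]
    exact lt_of_lt_of_le hτ.2 (min_le_left _ _)

theorem smooth_A : ContDiffAt ℝ ∞ (Apr A0 m0 ν) 0 := by
  unfold Apr
  fun_prop

theorem smooth_Ainv : ContDiffAt ℝ ∞ (fun τ => (Apr A0 m0 ν τ)⁻¹) 0 := by
  apply (smooth_A hK hA).inv
  unfold Apr
  simpa using hA.ne'

theorem smooth_eta : ContDiffAt ℝ ∞ (eta K) 0 := by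
  unfold eta
  exact ContDiffAt.div contDiffAt_const (by fun_prop) (by simp)

theorem smooth_Kinv : ContDiffAt ℝ ∞ (fun τ => (1 - K * τ)⁻¹) 0 := by
  apply ContDiffAt.inv (by fun_prop) (by simp)

theorem smooth_M : ContDiffAt ℝ ∞ (Mpr K A0 m0 ν) 0 := by
  have h : Mpr K A0 m0 ν = fun τ => ((m0 - ν * τ) * (1 - K * τ)) * (Apr A0 m0 ν τ)⁻¹ := by
    funext τ
    rw [Mpr, div_eq_mul_inv]
  rw [h]
  exact ContDiffAt.mul (by fun_prop) (smooth_Ainv hK hA)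

theorem smooth_lam : ContDiffAt ℝ ∞ (lamp K A0 m0 ν) 0 := by
  have h : lamp K A0 m0 ν = fun τ => ((-m0 + ν * τ) * K) * ((Apr A0 m0 ν τ)⁻¹ * (1 - K * τ)⁻¹)
      - 2 * ν * (Apr A0 m0 ν τ)⁻¹ + (-m0 + ν * τ) ^ 2 * (Apr A0 m0 ν τ)⁻¹ ^ 2 := by
    funext τ
    rw [lamp, div_eq_mul_inv, div_eq_mul_inv, div_eq_mul_inv, mul_inv, inv_pow]
  rw [h]
  have h1 := smooth_Ainv (m0 := m0) (ν := ν) hK hA
  refine ContDiffAt.add (ContDiffAt.sub (ContDiffAt.mul (by fun_prop)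
    (h1.mul (smooth_Kinv hK hA))) (contDiffAt_const.mul h1)) (ContDiffAt.mul (by fun_prop) (h1.pow 2))

theorem smooth_N : ContDiffAt ℝ ∞ (Npr K A0 m0 ν) 0 := by
  have h : Npr K A0 m0 ν = fun τ => (1 - τ * (1 - K * τ) * (-m0 + ν * τ) ^ 2 *
      (Apr A0 m0 ν τ)⁻¹) * (Apr A0 m0 ν τ)⁻¹ := by
    funext τ
    rw [Npr, div_eq_mul_inv, div_eq_mul_inv]
  rw [h]
  have h1 := smooth_Ainv (m0 := m0) (ν := ν) hK hA
  exact (contDiffAt_const.sub (ContDiffAt.mul (by fun_prop) h1)).mul h1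

theorem smooth_P (p Q : ℝ) : ContDiffAt ℝ ∞ (Pr p Q K A0 m0 ν) 0 := by
  unfold Pr
  exact contDiffAt_const.add (contDiffAt_const.mul (smooth_M hK hA))

theorem smooth_R (p Q : ℝ) : ContDiffAt ℝ ∞ (Rr p Q K A0 m0 ν) 0 := by
  unfold Rr
  exact ((smooth_P hK hA p Q).mul (smooth_eta hK hA)).add
    (contDiffAt_const.mul (smooth_lam hK hA))

theorem smooth_S (p Q : ℝ) : ContDiffAt ℝ ∞ (Sr p Q K A0 m0 ν) 0 := by
  unfold Sr
  refine ContDiffAt.mul (ContDiffAt.add (ContDiffAt.add (contDiffAt_const.mul (smooth_M hK hA)) ?_)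
    (contDiffAt_const.mul (smooth_N hK hA))) (smooth_A hK hA)
  exact ContDiffAt.mul (by fun_prop) (smooth_lam hK hA)

omit hK in
theorem deriv_M : deriv (Mpr K A0 m0 ν) 0 = -(ν + m0 * K) / A0 + m0 ^ 2 / A0 ^ 2 := by
  have h1 : HasDerivAt (Apr A0 m0 ν) (-m0) 0 := by
    have h0 := deriv_Apr (A0 := A0) (m0 := m0) (ν := ν) 0
    have hd : DifferentiableAt ℝ (Apr A0 m0 ν) 0 := by
      unfold Apr
      fun_prop
    have := hd.hasDerivAt
    rw [h0] at this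
    simpa using this
  have h2 : HasDerivAt (fun τ => (m0 - ν * τ) * (1 - K * τ)) (-ν - m0 * K) 0 := by
    have e1 : HasDerivAt (fun τ => m0 - ν * τ) (-ν) 0 := by
      simpa using ((hasDerivAt_id (0 : ℝ)).const_mul ν).const_sub m0
    have e2 : HasDerivAt (fun τ => 1 - K * τ) (-K) 0 := by
      simpa using ((hasDerivAt_id (0 : ℝ)).const_mul K).const_sub 1
    refine (e1.mul e2).congr_deriv ?_
    simp
    ring
  have hA0 : Apr A0 m0 ν 0 = A0 := by simp [Apr]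
  have h3 := h2.div h1 (by rw [hA0]; exact hA.ne')
  have h4 : deriv (Mpr K A0 m0 ν) 0 = _ := h3.deriv
  rw [h4, hA0]
  field_simp
  ring

omit hK in
theorem lam0 : lamp K A0 m0 ν 0 = -m0 * K / A0 - 2 * ν / A0 + m0 ^ 2 / A0 ^ 2 := by
  simp [lamp, Apr]

theorem deriv_P (p Q : ℝ) : deriv (Pr p Q K A0 m0 ν) 0 =
    p * (-(ν + m0 * K) / A0 + m0 ^ 2 / A0 ^ 2) := by
  have h1 : HasDerivAt (Pr p Q K A0 m0 ν) (p * deriv (Mpr K A0 m0 ν) 0) 0 := by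
    have := (((smooth_M (m0 := m0) (ν := ν) hK hA).differentiableAt
      (by simp)).hasDerivAt.const_mul p).const_add ((Q - 1) * K)
    exact this
  rw [h1.deriv, deriv_M hA]

theorem deriv_S (p Q : ℝ) : deriv (Sr p Q K A0 m0 ν) 0 =
    (Q * (-(ν + m0 * K) / A0 + m0 ^ 2 / A0 ^ 2) + (-m0 * K / A0 - 2 * ν / A0 + m0 ^ 2 / A0 ^ 2)
      + (p - 1) * (m0 / A0 ^ 2 - m0 ^ 2 / A0 ^ 2)) * A0
      - (Q * (m0 / A0) + (p - 1) * (1 / A0)) * m0 := by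
  have hA0 : Apr A0 m0 ν 0 = A0 := by simp [Apr]
  have h1 : HasDerivAt (Apr A0 m0 ν) (-m0) 0 := by
    have h0 := deriv_Apr (A0 := A0) (m0 := m0) (ν := ν) 0
    have hd : DifferentiableAt ℝ (Apr A0 m0 ν) 0 := by
      unfold Apr
      fun_prop
    have := hd.hasDerivAt
    rw [h0] at this
    simpa using this
  have hM : HasDerivAt (Mpr K A0 m0 ν) (-(ν + m0 * K) / A0 + m0 ^ 2 / A0 ^ 2) 0 := by
    rw [← deriv_M hA]
    exact ((smooth_M hK hA).differentiableAt (by simp)).hasDerivAt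
  have hM0 : Mpr K A0 m0 ν 0 = m0 / A0 := by simp [Mpr, hA0]
  have hN0 : Npr K A0 m0 ν 0 = 1 / A0 := by simp [Npr, hA0]
  have hk : HasDerivAt (fun τ : ℝ => τ * (1 - K * τ)) 1 0 := by
    have e2 : HasDerivAt (fun τ => 1 - K * τ) (-K) 0 := by
      simpa using ((hasDerivAt_id (0 : ℝ)).const_mul K).const_sub 1
    refine ((hasDerivAt_id (0 : ℝ)).mul e2).congr_deriv ?_
    simp
  have hl := ((smooth_lam (m0 := m0) (ν := ν) hK hA).differentiableAt (by simp)).hasDerivAt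
  have hN : HasDerivAt (Npr K A0 m0 ν) (m0 / A0 ^ 2 - m0 ^ 2 / A0 ^ 2) 0 := by
    have e3 : HasDerivAt (fun τ : ℝ => (-m0 + ν * τ) ^ 2) (2 * (-m0) * ν) 0 := by
      have e4 : HasDerivAt (fun τ => -m0 + ν * τ) ν 0 := by
        simpa using ((hasDerivAt_id (0 : ℝ)).const_mul ν).const_add (-m0)
      refine (e4.pow 2).congr_deriv ?_
      simp
    have e5 := ((hk.mul e3).div h1 (by rw [hA0]; exact hA.ne'))
    have e6 := (e5.const_sub 1).div h1 (by rw [hA0]; exact hA.ne')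
    have e7 : HasDerivAt (Npr K A0 m0 ν) _ 0 := e6
    refine e7.congr_deriv ?_
    simp only [hA0]
    simp
    field_simp
    ring
  have h5 := (((hM.const_mul Q).add (hk.mul hl)).add (hN.const_mul (p - 1))).mul h1
  have h6 : deriv (Sr p Q K A0 m0 ν) 0 = _ := h5.deriv
  rw [h6]
  simp only [hA0, lam0 hA]
  simp
  rw [hM0, hN0]
  ring

end

end Pool.Agent.RF.H58
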