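import Pool.Agent.Helper36_RF.Chr
import Pool.Agent.Helper5_RF.Common
import Pool.Agent.Helper9_RF.Sym

/-!
# The curvature tensor in terms of the second derivatives of the metric (helper58)
-/

noncomputable section

open scoped ContDiff Topology RealInnerProductSpace
set_option maxSynthPendingDepth 3
set_option linter.unusedSectionVars false
open Set

namespace Pool.Agent.RF.H58

open Pool.Agent.RF

variable {ι : Type} [Fintype ι] [DecidableEq ι] {G : E ι → Bil (E ι)} {U : Set (E ι)}

theorem riem_formula (hG : IsMetricOn G U) {x : E ι} (hx : x ∈ U) (u v w z : E ι) :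
    G x (riem G x u v w) z = (1/2 : ℝ) * (fderiv ℝ (fderiv ℝ G) x u w v z
      + fderiv ℝ (fderiv ℝ G) x v z u w - fderiv ℝ (fderiv ℝ G) x u z v w
      - fderiv ℝ (fderiv ℝ G) x v w u z)
      - G x (chris G x v w) (chris G x u z) + G x (chris G x u w) (chris G x v z) := by
  have hF := H9.chrFacts chrStatement hG
  have hU := hG.isOpen
  have hGd : ∀ y ∈ U, ContDiffAt ℝ ∞ G y := fun y hy => hG.smooth.contDiffAt (hU.mem_nhds hy)
  have hGx : DifferentiableAt ℝ G x := (hGd x hx).differentiableAt (by simp)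
  have hs := hG.symm
  have hdd : ContDiffAt ℝ 1 (fderiv ℝ G) x := (hGd x hx).fderiv_right (by
    exact WithTop.coe_le_coe.2 le_top)
  have hdd' : DifferentiableAt ℝ (fderiv ℝ G) x := hdd.differentiableAt (by simp)
  have hsym2 : ∀ a b : E ι, fderiv ℝ (fderiv ℝ G) x a b = fderiv ℝ (fderiv ℝ G) x b a := by
    have := (hGd x hx).isSymmSndFDerivAt (by
      simp only [minSmoothness_of_isRCLikeNormedField]
      exact WithTop.coe_le_coe.2 le_top)
    intro a b
    exact this a b
  have e1 : ∀ b c d : E ι, HasFDerivAt (fun y => fderiv ℝ G y b c d)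
        (((ContinuousLinearMap.apply ℝ ℝ d).comp ((ContinuousLinearMap.apply ℝ (E ι →L[ℝ] ℝ) c).comp
          ((ContinuousLinearMap.apply ℝ (Bil (E ι)) b).comp (fderiv ℝ (fderiv ℝ G) x))))) x := by
    intro b c d
    exact HasFDerivAt.comp (g := fun D : E ι →L[ℝ] Bil (E ι) => D b c d) x
        (((ContinuousLinearMap.apply ℝ ℝ d).comp
        ((ContinuousLinearMap.apply ℝ (E ι →L[ℝ] ℝ) c).comp
          (ContinuousLinearMap.apply ℝ (Bil (E ι)) b))).hasFDerivAt) hdd'.hasFDerivAt
  -- derivative of the Koszul formula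
  have key : ∀ a b c d : E ι, fderiv ℝ G x a (chris G x b c) d
      + G x (fderiv ℝ (fun y => chris G y b c) x a) d =
      (1/2 : ℝ) * (fderiv ℝ (fderiv ℝ G) x a b c d + fderiv ℝ (fderiv ℝ G) x a c b d
        - fderiv ℝ (fderiv ℝ G) x a d b c) := by
    intro a b c d
    have hbc := (hF.diffAt hx hU b c).hasFDerivAt
    have e2 := (hGx.hasFDerivAt.clm_apply hbc).clm_apply (hasFDerivAt_const d x)
    have e3 := (((e1 b c d).add (e1 c b d)).sub (e1 d b c)).const_mul (1/2 : ℝ)
    have e4 := e3.congr_of_eventuallyEq (f₁ := fun y : E ι => G y (chris G y b c) d) (by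
      filter_upwards [hU.mem_nhds hx] with y hy
      rw [hF.kos y hy]
      rfl)
    have e5 := congrArg (fun L : E ι →L[ℝ] ℝ => L a) (e4.unique e2)
    simp at e5
    linarith
  have hc := fun a b c => hF.compat hx a b c (hs x hx)
  have hDs : ∀ a b c d : E ι, fderiv ℝ (fderiv ℝ G) x a b c d = fderiv ℝ (fderiv ℝ G) x a b d c := by
    intro a b c d
    have e4 := (e1 b c d).congr_of_eventuallyEq (f₁ := fun y : E ι => fderiv ℝ G y b d c) (by
      filter_upwards [hU.mem_nhds hx] with y hy
      exact hF.dsymm y hy d c b)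
    have e5 := congrArg (fun L : E ι →L[ℝ] ℝ => L a) (e4.unique (e1 b d c))
    simpa using e5
  have h1 := key u v w z
  have h2 := key v u w z
  rw [hc u (chris G x v w) z] at h1
  rw [hc v (chris G x u w) z] at h2
  have e : G x (riem G x u v w) z = G x (fderiv ℝ (fun y => chris G y v w) x u) z
      - G x (fderiv ℝ (fun y => chris G y u w) x v) z
      + G x (chris G x u (chris G x v w)) z - G x (chris G x v (chris G x u w)) z := by
    simp only [riem, map_add, map_sub, add_apply, sub_apply]
  rw [e]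
  rw [hsym2 v u] at h2
  linarith [h1, h2, hDs u w v z, hDs v w u z]

end Pool.Agent.RF.H58
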